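import Mathlib
set_option autoImplicit false

/-! The Hardy-Littlewood-Sobolev inequality on the diagonal, for general even kernels `k ≥ 0` with
`∫_B k ≤ M |B|^(1/r)`, from the layer cake formula. (The case of the kernel
`(1+|v|²)^(-(m-1)/2)` is due to helper773, `Pool.Agent.N773.SC.A`.) -/

namespace Pool.Agent.N484.KC

open MeasureTheory Set Metric
open scoped ENNReal

abbrev E (n : ℕ) := EuclideanSpace ℝ (Fin n)

variable {m : ℕ}

/-- the energy of a function -/
noncomputable def En (k F : E m → ℝ≥0∞) : ℝ≥0∞ := ∫⁻ y, ∫⁻ w, F y * F w * k (w - y)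

/-- the energy of two sets -/
noncomputable def E2 (k : E m → ℝ≥0∞) (A B : Set (E m)) : ℝ≥0∞ := ∫⁻ y in A, ∫⁻ w in B, k (w - y)

theorem E2_le (k : E m → ℝ≥0∞) (r : ℝ) (M : ℝ≥0∞)
    (hM : ∀ B, MeasurableSet B → ∀ y, ∫⁻ w in B, k (w - y) ≤ M * volume B ^ (1 / r))
    (A B : Set (E m)) (hB : MeasurableSet B) :
    E2 k A B ≤ M * (volume A * volume B ^ (1 / r)) := by
  unfold E2
  refine (lintegral_mono fun y => hM B hB y).trans (le_of_eq ?_)
  rw [lintegral_const, Measure.restrict_apply_univ]
  ring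

theorem E2_symm (k : E m → ℝ≥0∞) (hk : Measurable k) (hev : ∀ v, k (-v) = k v)
    (A B : Set (E m)) : E2 k A B = E2 k B A := by
  unfold E2
  rw [lintegral_lintegral_swap (by
    exact (hk.comp (measurable_snd.sub measurable_fst)).aemeasurable)]
  refine lintegral_congr fun y => lintegral_congr fun w => ?_
  rw [← hev, neg_sub]

/-- the distribution function -/
noncomputable def df (h : E m → ℝ) (t : ℝ) : ℝ≥0∞ := volume {y | t < h y}

theorem df_anti (h : E m → ℝ) : Antitone (df h) := fun _ _ hst =>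
  measure_mono fun _ hy => lt_of_le_of_lt hst hy

theorem df_meas (h : E m → ℝ) : Measurable (df h) := (df_anti h).measurable

theorem layer (x : ℝ) :
    ENNReal.ofReal x = ∫⁻ s in Ioi (0 : ℝ), (Iio x).indicator 1 s := by
  rw [← lintegral_indicator measurableSet_Ioi]
  have : ∀ s : ℝ, (Ioi (0 : ℝ)).indicator ((Iio x).indicator (1 : ℝ → ℝ≥0∞)) s =
      (Ioo 0 x).indicator 1 s := by
    intro s
    by_cases h1 : 0 < s
    · by_cases h2 : s < x
      · rw [indicator_of_mem (by exact h1), indicator_of_mem (by exact h2),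
          indicator_of_mem (by exact ⟨h1, h2⟩)]
      · rw [indicator_of_mem (by exact h1), indicator_of_notMem (by exact h2),
          indicator_of_notMem (by exact fun h => h2 h.2)]
    · rw [indicator_of_notMem (by exact h1), indicator_of_notMem (by exact fun h => h1 h.1)]
  have h2 : (fun s : ℝ => (Ioi (0 : ℝ)).indicator (fun s => (Iio x).indicator (1 : ℝ → ℝ≥0∞) s) s) =
      (Ioo 0 x).indicator 1 := funext this
  rw [h2, lintegral_indicator_one measurableSet_Ioo, Real.volume_Ioo, sub_zero]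

theorem En_layer (k : E m → ℝ≥0∞) (hk : Measurable k) (h : E m → ℝ) (hh : Measurable h) :
    En k (fun y => ENNReal.ofReal (h y)) =
      ∫⁻ r : ℝ × ℝ, E2 k {y | r.1 < h y} {y | r.2 < h y}
        ∂((volume.restrict (Ioi 0)).prod (volume.restrict (Ioi 0))) := by
  have hbm2 : Measurable fun z : E m × E m => k (z.2 - z.1) :=
    hk.comp (measurable_snd.sub measurable_fst)
  unfold En
  have h1 := lintegral_prod (μ := (volume : Measure (E m))) (ν := (volume : Measure (E m)))
    (fun z : E m × E m => ENNReal.ofReal (h z.1) * ENNReal.ofReal (h z.2) * k (z.2 - z.1))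
    (by fun_prop)
  rw [← h1]
  have hI : Measurable fun q : (E m × E m) × (ℝ × ℝ) =>
      (Iio (h q.1.1)).indicator (1 : ℝ → ℝ≥0∞) q.2.1 := by
    have : (fun q : (E m × E m) × (ℝ × ℝ) => (Iio (h q.1.1)).indicator (1 : ℝ → ℝ≥0∞) q.2.1) =
        ({q : (E m × E m) × (ℝ × ℝ) | q.2.1 < h q.1.1}).indicator 1 := by
      ext q
      by_cases hq : q.2.1 < h q.1.1
      · rw [indicator_of_mem (by exact hq), indicator_of_mem (by exact hq)]; rfl
      · rw [indicator_of_notMem (by exact hq), indicator_of_notMem (by exact hq)]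
    rw [this]
    exact measurable_one.indicator (measurableSet_lt (by fun_prop) (by fun_prop))
  have hJ : Measurable fun q : (E m × E m) × (ℝ × ℝ) =>
      (Iio (h q.1.2)).indicator (1 : ℝ → ℝ≥0∞) q.2.2 := by
    have : (fun q : (E m × E m) × (ℝ × ℝ) => (Iio (h q.1.2)).indicator (1 : ℝ → ℝ≥0∞) q.2.2) =
        ({q : (E m × E m) × (ℝ × ℝ) | q.2.2 < h q.1.2}).indicator 1 := by
      ext q
      by_cases hq : q.2.2 < h q.1.2
      · rw [indicator_of_mem (by exact hq), indicator_of_mem (by exact hq)]; rfl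
      · rw [indicator_of_notMem (by exact hq), indicator_of_notMem (by exact hq)]
    rw [this]
    exact measurable_one.indicator (measurableSet_lt (by fun_prop) (by fun_prop))
  have h2 : ∀ z : E m × E m, ENNReal.ofReal (h z.1) * ENNReal.ofReal (h z.2) * k (z.2 - z.1) =
      ∫⁻ r : ℝ × ℝ, (Iio (h z.1)).indicator (1 : ℝ → ℝ≥0∞) r.1 *
        (Iio (h z.2)).indicator (1 : ℝ → ℝ≥0∞) r.2 * k (z.2 - z.1)
        ∂((volume.restrict (Ioi 0)).prod (volume.restrict (Ioi 0))) := by
    intro z
    rw [layer (h z.1), layer (h z.2), ← lintegral_prod_mul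
      (measurable_one.indicator measurableSet_Iio).aemeasurable
      (measurable_one.indicator measurableSet_Iio).aemeasurable, lintegral_mul_const]
    have a1 : Measurable ((Iio (h z.1)).indicator (1 : ℝ → ℝ≥0∞)) :=
      measurable_one.indicator measurableSet_Iio
    have a2 : Measurable ((Iio (h z.2)).indicator (1 : ℝ → ℝ≥0∞)) :=
      measurable_one.indicator measurableSet_Iio
    exact (a1.comp measurable_fst).mul (a2.comp measurable_snd)
  simp_rw [h2]
  rw [lintegral_lintegral_swap]
  · refine lintegral_congr fun r => ?_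
    have hA : MeasurableSet {y : E m | r.1 < h y} := measurableSet_lt measurable_const hh
    have hB : MeasurableSet {y : E m | r.2 < h y} := measurableSet_lt measurable_const hh
    unfold E2
    rw [← lintegral_indicator hA]
    have h3 := lintegral_prod (μ := (volume : Measure (E m))) (ν := (volume : Measure (E m)))
      (fun z : E m × E m => (Iio (h z.1)).indicator (1 : ℝ → ℝ≥0∞) r.1 *
        (Iio (h z.2)).indicator (1 : ℝ → ℝ≥0∞) r.2 * k (z.2 - z.1))
      (by
        have b1 : Measurable fun z : E m × E m => (z, r) := by fun_prop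
        exact (((hI.comp b1).mul (hJ.comp b1)).mul hbm2).aemeasurable)
    rw [h3]
    refine lintegral_congr fun y => ?_
    by_cases hy : r.1 < h y
    · rw [indicator_of_mem (by exact hy), ← lintegral_indicator hB]
      refine lintegral_congr fun w => ?_
      rw [indicator_of_mem (by exact hy)]
      by_cases hw : r.2 < h w
      · rw [indicator_of_mem (by exact hw), indicator_of_mem (by exact hw)]
        simp
      · rw [indicator_of_notMem (by exact hw), indicator_of_notMem (by exact hw)]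
        simp
    · rw [indicator_of_notMem (by exact hy)]
      have : ∀ w, (Iio (h y)).indicator (1 : ℝ → ℝ≥0∞) r.1 *
        (Iio (h w)).indicator (1 : ℝ → ℝ≥0∞) r.2 * k (w - y) = 0 := by
        intro w
        rw [indicator_of_notMem (by exact hy)]
        simp
      simp_rw [this]
      exact lintegral_zero
  · exact ((hI.mul hJ).mul (hbm2.comp measurable_fst)).aemeasurable

/-- the integral of the distribution function against `t^(p-1)` -/
noncomputable def PP (r : ℝ) (h : E m → ℝ) : ℝ≥0∞ :=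
  ∫⁻ t in Ioi (0 : ℝ), df h t * ENNReal.ofReal (t ^ ((r - 1) / (r + 1)))

/-- the constant -/
noncomputable def cH (r : ℝ) : ℝ≥0∞ := ENNReal.ofReal ((r + 1) / r) ^ ((r - 1) / r)

theorem int_pow {r : ℝ} (hr : 1 < r) (t : ℝ) (ht : 0 < t) :
    ∫⁻ s in Ioc (0 : ℝ) t, ENNReal.ofReal (s ^ (-(1 / (r + 1)))) =
      ENNReal.ofReal ((r + 1) / r) * ENNReal.ofReal (t ^ (r / (r + 1))) := by
  have hr0 : -1 < -(1 / (r + 1)) := by
    rw [neg_lt_neg_iff, div_lt_one (by linarith)]; linarith
  have h1 : IntegrableOn (fun s : ℝ => s ^ (-(1 / (r + 1)))) (Ioc 0 t) :=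
    (intervalIntegrable_iff_integrableOn_Ioc_of_le ht.le).1
      (intervalIntegral.intervalIntegrable_rpow' hr0)
  rw [← ofReal_integral_eq_lintegral_ofReal h1 ?_, ← intervalIntegral.integral_of_le ht.le,
    integral_rpow (Or.inl hr0), ← ENNReal.ofReal_mul (by positivity)]
  · congr 1
    have hr1 : r + 1 ≠ 0 := by positivity
    have e1 : -(1 / (r + 1)) + 1 = r / (r + 1) := by field_simp; ring
    rw [e1, Real.zero_rpow (by positivity), sub_zero]
    field_simp
  · rw [Filter.EventuallyLE, ae_restrict_iff' measurableSet_Ioc]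
    exact Filter.Eventually.of_forall fun s hs => Real.rpow_nonneg hs.1.le _

theorem inner_le {r : ℝ} (hr : 1 < r) (h : E m → ℝ) (t : ℝ) (ht : 0 < t) :
    ∫⁻ s in Ioc (0 : ℝ) t, df h s ^ (1 / r) ≤
      cH r * PP r h ^ (1 / r) * ENNReal.ofReal (t ^ ((r - 1) / (r + 1))) := by
  have hm0 : (0 : ℝ) < r := by linarith
  have hm1 : (0 : ℝ) < r - 1 := by linarith
  have hm2 : (0 : ℝ) < r + 1 := by linarith
  have hdm := df_meas h
  have hpq : r.HolderConjugate (r / (r - 1)) := by
    rw [Real.holderConjugate_iff]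
    refine ⟨hr, ?_⟩
    field_simp
    ring
  set θ : ℝ := (r - 1) / (r + 1) with hθ
  have hH := ENNReal.lintegral_mul_le_Lp_mul_Lq (volume.restrict (Ioc (0 : ℝ) t)) hpq
    (f := fun s => (df h s * ENNReal.ofReal (s ^ θ)) ^ (1 / r))
    (g := fun s => ENNReal.ofReal (s ^ (-(θ / r))))
    (by fun_prop) (by fun_prop)
  have e1 : ∫⁻ s in Ioc (0 : ℝ) t, df h s ^ (1 / r) = ∫⁻ s in Ioc (0 : ℝ) t,
      ((fun s => (df h s * ENNReal.ofReal (s ^ θ)) ^ (1 / r)) *
        fun s => ENNReal.ofReal (s ^ (-(θ / r)))) s := by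
    refine setLIntegral_congr_fun measurableSet_Ioc fun s hs => ?_
    simp only [Pi.mul_apply]
    rw [ENNReal.mul_rpow_of_nonneg _ _ (by positivity), ENNReal.ofReal_rpow_of_nonneg
      (Real.rpow_nonneg hs.1.le _) (by positivity), mul_assoc, ← ENNReal.ofReal_mul (by
        exact Real.rpow_nonneg (Real.rpow_nonneg hs.1.le _) _), ← Real.rpow_mul hs.1.le,
      ← Real.rpow_add hs.1]
    have : θ * (1 / r) + -(θ / r) = 0 := by ring
    rw [this, Real.rpow_zero, ENNReal.ofReal_one, mul_one]
  rw [e1]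
  refine hH.trans ?_
  have e2 : (∫⁻ s in Ioc (0 : ℝ) t, ((df h s * ENNReal.ofReal (s ^ θ)) ^ (1 / r)) ^ r)
      ≤ PP r h := by
    have : ∀ s, ((df h s * ENNReal.ofReal (s ^ θ)) ^ (1 / r)) ^ r =
        df h s * ENNReal.ofReal (s ^ θ) := by
      intro s
      rw [← ENNReal.rpow_mul, one_div, inv_mul_cancel₀ hm0.ne', ENNReal.rpow_one]
    simp_rw [this]
    unfold PP
    exact lintegral_mono_set Ioc_subset_Ioi_self
  have e3 : (∫⁻ s in Ioc (0 : ℝ) t, ENNReal.ofReal (s ^ (-(θ / r))) ^ (r / (r - 1))) =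
      ENNReal.ofReal ((r + 1) / r) * ENNReal.ofReal (t ^ (r / (r + 1))) := by
    rw [← int_pow hr t ht]
    refine setLIntegral_congr_fun measurableSet_Ioc fun s hs => ?_
    rw [ENNReal.ofReal_rpow_of_nonneg (Real.rpow_nonneg hs.1.le _) (by positivity),
      ← Real.rpow_mul hs.1.le]
    congr 2
    rw [hθ]
    field_simp
  rw [e3]
  have e4 : 1 / (r / (r - 1)) = (r - 1) / r := by rw [one_div_div]
  rw [e4, ENNReal.mul_rpow_of_nonneg _ _ (by positivity), ENNReal.ofReal_rpow_of_nonneg
    (Real.rpow_nonneg ht.le _) (by positivity), ← Real.rpow_mul ht.le]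
  have e5 : r / (r + 1) * ((r - 1) / r) = θ := by
    rw [hθ]; field_simp
  rw [e5]
  have e6 := ENNReal.rpow_le_rpow e2 (by positivity : (0 : ℝ) ≤ 1 / r)
  calc _ ≤ PP r h ^ (1 / r) * (ENNReal.ofReal ((r + 1) / r) ^ ((r - 1) / r) *
        ENNReal.ofReal (t ^ θ)) := mul_le_mul' e6 le_rfl
    _ = _ := by unfold cH; ring

theorem E2_max (k : E m → ℝ≥0∞) (hk : Measurable k) (hev : ∀ v, k (-v) = k v) {r : ℝ}
    (M : ℝ≥0∞)
    (hM : ∀ B, MeasurableSet B → ∀ y, ∫⁻ w in B, k (w - y) ≤ M * volume B ^ (1 / r))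
    (h : E m → ℝ) (hh : Measurable h) (s t : ℝ) :
    E2 k {y | s < h y} {y | t < h y} ≤ M *
      ((Iic t).indicator (fun s => df h t * df h s ^ (1 / r)) s +
       (Iic s).indicator (fun t => df h s * df h t ^ (1 / r)) t) := by
  have hA : ∀ r : ℝ, MeasurableSet {y : E m | r < h y} := fun r => measurableSet_lt measurable_const hh
  rcases le_total s t with hst | hst
  · rw [indicator_of_mem (show s ∈ Iic t from hst), E2_symm k hk hev]
    exact (E2_le k r M hM _ _ (hA s)).trans (mul_le_mul' le_rfl le_self_add)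
  · rw [indicator_of_mem (show t ∈ Iic s from hst)]
    exact (E2_le k r M hM _ _ (hA t)).trans (mul_le_mul' le_rfl le_add_self)

theorem hls0 (k : E m → ℝ≥0∞) (hk : Measurable k) (hev : ∀ v, k (-v) = k v) {r : ℝ}
    (hr : 1 < r) (M : ℝ≥0∞)
    (hM : ∀ B, MeasurableSet B → ∀ y, ∫⁻ w in B, k (w - y) ≤ M * volume B ^ (1 / r))
    (h : E m → ℝ) (hh : Measurable h) :
    En k (fun y => ENNReal.ofReal (h y)) ≤
      M * (2 * cH r) * (PP r h ^ (1 / r) * PP r h) := by
  have hdm := df_meas h
  rw [En_layer k hk h hh]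
  set ρ : Measure ℝ := volume.restrict (Ioi 0) with hρ
  have hMm : Measurable (Function.uncurry fun t s : ℝ =>
      (Iic t).indicator (fun s => df h t * df h s ^ (1 / r)) s) := by
    have : (Function.uncurry fun t s : ℝ =>
        (Iic t).indicator (fun s => df h t * df h s ^ (1 / r)) s) =
        ({q : ℝ × ℝ | q.2 ≤ q.1}).indicator fun q => df h q.1 * df h q.2 ^ (1 / r) := by
      ext ⟨t, s⟩
      by_cases hq : s ≤ t
      · rw [indicator_of_mem (by exact hq)]
        simp only [Function.uncurry]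
        rw [indicator_of_mem (by exact hq)]
      · rw [indicator_of_notMem (by exact hq)]
        simp only [Function.uncurry]
        rw [indicator_of_notMem (by exact hq)]
    rw [this]
    refine Measurable.indicator (by fun_prop) (measurableSet_le measurable_snd measurable_fst)
  -- the half plane integral
  have hhalf : ∫⁻ t, ∫⁻ s, (Iic t).indicator (fun s => df h t * df h s ^ (1 / r)) s ∂ρ ∂ρ ≤
      cH r * (PP r h ^ (1 / r) * PP r h) := by
    have h1 : ∀ᵐ t ∂ρ, ∫⁻ s, (Iic t).indicator (fun s => df h t * df h s ^ (1 / r)) s ∂ρ ≤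
        cH r * PP r h ^ (1 / r) *
          (df h t * ENNReal.ofReal (t ^ ((r - 1) / (r + 1)))) := by
      rw [hρ, ae_restrict_iff' measurableSet_Ioi]
      refine Filter.Eventually.of_forall fun t ht => ?_
      rw [lintegral_indicator measurableSet_Iic, Measure.restrict_restrict measurableSet_Iic,
        inter_comm, Ioi_inter_Iic, lintegral_const_mul _ (by fun_prop)]
      refine (mul_le_mul' le_rfl (inner_le hr h t ht)).trans (le_of_eq ?_)
      ring
    refine (lintegral_mono_ae h1).trans (le_of_eq ?_)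
    rw [lintegral_const_mul _ (by fun_prop)]
    unfold PP
    ring
  calc ∫⁻ z : ℝ × ℝ, E2 k {y | z.1 < h y} {y | z.2 < h y} ∂(ρ.prod ρ)
      ≤ ∫⁻ z : ℝ × ℝ, M *
        ((Iic z.2).indicator (fun s => df h z.2 * df h s ^ (1 / r)) z.1 +
       (Iic z.1).indicator (fun t => df h z.1 * df h t ^ (1 / r)) z.2) ∂(ρ.prod ρ) :=
        lintegral_mono fun z => E2_max k hk hev M hM h hh z.1 z.2
    _ = M * ((∫⁻ z : ℝ × ℝ,
        (Iic z.2).indicator (fun s => df h z.2 * df h s ^ (1 / r)) z.1 ∂(ρ.prod ρ)) +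
        ∫⁻ z : ℝ × ℝ,
        (Iic z.1).indicator (fun t => df h z.1 * df h t ^ (1 / r)) z.2 ∂(ρ.prod ρ)) := by
        have a1 : Measurable fun z : ℝ × ℝ =>
            (Iic z.2).indicator (fun s => df h z.2 * df h s ^ (1 / r)) z.1 :=
          hMm.comp measurable_swap
        have a2 : Measurable fun z : ℝ × ℝ =>
            (Iic z.1).indicator (fun t => df h z.1 * df h t ^ (1 / r)) z.2 := hMm
        have a3 : Measurable fun z : ℝ × ℝ =>
            (Iic z.2).indicator (fun s => df h z.2 * df h s ^ (1 / r)) z.1 +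
            (Iic z.1).indicator (fun t => df h z.1 * df h t ^ (1 / r)) z.2 := a1.add a2
        rw [lintegral_const_mul _ a3, lintegral_add_left a1]
    _ = M * (2 * ∫⁻ t, ∫⁻ s,
        (Iic t).indicator (fun s => df h t * df h s ^ (1 / r)) s ∂ρ ∂ρ) := by
        have b1 := lintegral_prod_symm (μ := ρ) (ν := ρ) (fun z : ℝ × ℝ =>
          (Iic z.2).indicator (fun s => df h z.2 * df h s ^ (1 / r)) z.1)
          (hMm.comp measurable_swap).aemeasurable
        have b2 := lintegral_prod (μ := ρ) (ν := ρ) (fun z : ℝ × ℝ =>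
          (Iic z.1).indicator (fun t => df h z.1 * df h t ^ (1 / r)) z.2)
          hMm.aemeasurable
        rw [b1, b2, two_mul]
    _ ≤ M * (2 * (cH r * (PP r h ^ (1 / r) * PP r h))) := by
        gcongr
    _ = _ := by ring

/-- the exponent `2r/(r+1)` -/
noncomputable def pe (r : ℝ) : ℝ := 2 * r / (r + 1)

theorem pe_gt {r : ℝ} (hr : 1 < r) : 1 < pe r := by
  unfold pe; rw [lt_div_iff₀ (by linarith)]; linarith

theorem PP_le {r : ℝ} (hr : 1 < r) (h : E m → ℝ) (hh : Measurable h) (h0 : ∀ y, 0 ≤ h y) :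
    PP r h ≤ ∫⁻ y, ENNReal.ofReal (h y) ^ pe r := by
  have hp : 1 ≤ pe r := (pe_gt hr).le
  have h1 := lintegral_rpow_eq_lintegral_meas_lt_mul (volume : Measure (E m))
    (Filter.Eventually.of_forall h0) hh.aemeasurable (p := pe r) (by linarith)
  have h2 : ∀ y, ENNReal.ofReal (h y) ^ pe r = ENNReal.ofReal (h y ^ pe r) := fun y =>
    ENNReal.ofReal_rpow_of_nonneg (h0 y) (by linarith)
  simp_rw [h2]
  rw [h1]
  have h3 : pe r - 1 = (r - 1) / (r + 1) := by
    unfold pe
    have : r + 1 ≠ 0 := by positivity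
    field_simp
    ring
  rw [h3]
  have h4 : (1 : ℝ≥0∞) ≤ ENNReal.ofReal (pe r) := by
    rw [← ENNReal.ofReal_one]; exact ENNReal.ofReal_le_ofReal hp
  calc PP r h = 1 * PP r h := (one_mul _).symm
    _ ≤ _ := mul_le_mul' h4 le_rfl

theorem cH_ne_top {r : ℝ} (hr : 1 < r) : cH r ≠ ∞ := by
  unfold cH
  exact ENNReal.rpow_ne_top_of_nonneg (div_nonneg (by linarith) (by linarith)) ENNReal.ofReal_ne_top

/-- the Lebesgue norm with exponent `p` -/
noncomputable def nr (p : ℝ) (F : E m → ℝ≥0∞) : ℝ≥0∞ := (∫⁻ y, F y ^ p) ^ (1 / p)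

/-- **the Hardy-Littlewood-Sobolev inequality**, real functions -/
theorem hls1 (k : E m → ℝ≥0∞) (hk : Measurable k) (hev : ∀ v, k (-v) = k v) {r : ℝ}
    (hr : 1 < r) (M : ℝ≥0∞)
    (hM : ∀ B, MeasurableSet B → ∀ y, ∫⁻ w in B, k (w - y) ≤ M * volume B ^ (1 / r))
    (h : E m → ℝ) (hh : Measurable h) (h0 : ∀ y, 0 ≤ h y) :
    En k (fun y => ENNReal.ofReal (h y)) ≤
      M * (2 * cH r) * nr (pe r) (fun y => ENNReal.ofReal (h y)) ^ 2 := by
  have hr0 : 0 < r := by linarith
  refine (hls0 k hk hev hr M hM h hh).trans ?_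
  have h1 := PP_le hr h hh h0
  unfold nr
  set I : ℝ≥0∞ := ∫⁻ y, ENNReal.ofReal (h y) ^ pe r with hI
  have h2 : (I ^ (1 / pe r)) ^ 2 = I ^ (1 / r) * I := by
    rw [← ENNReal.rpow_natCast, ← ENNReal.rpow_mul]
    nth_rewrite 3 [← ENNReal.rpow_one I]
    rw [← ENNReal.rpow_add_of_nonneg _ _ (by positivity) (by norm_num)]
    congr 1
    unfold pe
    push_cast
    field_simp
    ring
  rw [h2]
  gcongr

/-- **the Hardy-Littlewood-Sobolev inequality** -/
theorem hls (k : E m → ℝ≥0∞) (hk : Measurable k) (hev : ∀ v, k (-v) = k v) {r : ℝ}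
    (hr : 1 < r) (M : ℝ≥0∞)
    (hM : ∀ B, MeasurableSet B → ∀ y, ∫⁻ w in B, k (w - y) ≤ M * volume B ^ (1 / r))
    (F : E m → ℝ≥0∞) (hF : Measurable F) :
    En k F ≤ M * (2 * cH r) * nr (pe r) F ^ 2 := by
  have hr0 : 0 < r := by linarith
  have hp := pe_gt hr
  rcases eq_or_ne M 0 with hM0 | hM0
  · -- the kernel vanishes
    have hk0 : ∀ y : E m, ∫⁻ w, k (w - y) = 0 := by
      intro y
      have := hM univ MeasurableSet.univ y
      rw [hM0, zero_mul, nonpos_iff_eq_zero, Measure.restrict_univ] at this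
      exact this
    have : En k F = 0 := by
      unfold En
      rw [lintegral_eq_zero_iff']
      · refine Filter.Eventually.of_forall fun y => ?_
        have hky := hk0 y
        have hkm : Measurable fun w => k (w - y) := hk.comp (measurable_id.sub_const y)
        rw [lintegral_eq_zero_iff hkm] at hky
        simp only [Pi.zero_apply]
        rw [lintegral_eq_zero_iff (by fun_prop)]
        filter_upwards [hky] with w hw
        simp only [Pi.zero_apply] at hw ⊢
        rw [hw, mul_zero]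
      · have : Measurable fun z : E m × E m => F z.1 * F z.2 * k (z.2 - z.1) :=
          ((hF.comp measurable_fst).mul (hF.comp measurable_snd)).mul
            (hk.comp (measurable_snd.sub measurable_fst))
        exact this.lintegral_prod_right'.aemeasurable
    rw [this]
    exact zero_le
  rcases eq_or_ne (∫⁻ y, F y ^ pe r) ∞ with hI | hI
  · have h1 : nr (pe r) F = ∞ := by
      unfold nr; rw [hI, ENNReal.top_rpow_of_pos (by positivity)]
    have hc : cH r ≠ 0 := by
      unfold cH
      have : 0 < (r + 1) / r := by positivity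
      exact (ENNReal.rpow_pos (ENNReal.ofReal_pos.2 this) ENNReal.ofReal_ne_top).ne'
    rw [h1, ENNReal.top_pow two_ne_zero, ENNReal.mul_top (mul_ne_zero hM0 (mul_ne_zero two_ne_zero hc))]
    exact le_top
  · have hfin : ∀ᵐ y, F y < ∞ := by
      have h1 : ∀ᵐ y, F y ^ pe r < ∞ := ae_lt_top (hF.pow_const _) hI
      filter_upwards [h1] with y hy
      by_contra hcon
      rw [not_lt, top_le_iff] at hcon
      rw [hcon, ENNReal.top_rpow_of_pos (by linarith)] at hy
      exact lt_irrefl _ hy
    have hae : (fun y => ENNReal.ofReal (F y).toReal) =ᵐ[volume] F := by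
      filter_upwards [hfin] with y hy
      exact ENNReal.ofReal_toReal hy.ne
    have h1 := hls1 k hk hev hr M hM (fun y => (F y).toReal) hF.ennreal_toReal
      (fun y => ENNReal.toReal_nonneg)
    have h2 : nr (pe r) (fun y => ENNReal.ofReal (F y).toReal) = nr (pe r) F := by
      unfold nr
      congr 1
      refine lintegral_congr_ae ?_
      filter_upwards [hae] with y hy
      rw [hy]
    have h3 : En k (fun y => ENNReal.ofReal (F y).toReal) = En k F := by
      unfold En
      refine lintegral_congr_ae ?_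
      filter_upwards [hae] with y hy
      refine lintegral_congr_ae ?_
      filter_upwards [hae] with w hw
      rw [hy, hw]
    rw [h2, h3] at h1
    exact h1

end Pool.Agent.N484.KC
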