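import Mathlib
import Pool.Agent.N484.KC.A
set_option autoImplicit false

/-! Centring: the bilinear form of a translate of a convex symmetric set is bounded by the energies
of the centred set. -/

namespace Pool.Agent.N484.KC

open MeasureTheory Set Metric
open scoped ENNReal

variable {m : ℕ}

/-- the indicator function with values in `ℝ≥0∞` -/
noncomputable def ind (S : Set (E m)) : E m → ℝ≥0∞ := S.indicator 1

theorem ind_meas {S : Set (E m)} (hS : MeasurableSet S) : Measurable (ind S) :=
  measurable_one.indicator hS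

theorem ind_mem {S : Set (E m)} {x : E m} (h : x ∈ S) : ind S x = 1 := by
  unfold ind; rw [indicator_of_mem h]; rfl

theorem ind_not {S : Set (E m)} {x : E m} (h : x ∉ S) : ind S x = 0 := by
  unfold ind; rw [indicator_of_notMem h]

theorem ind_le {S : Set (E m)} (x : E m) : ind S x ≤ 1 := by
  by_cases h : x ∈ S
  · rw [ind_mem h]
  · rw [ind_not h]; exact zero_le

/-- the integral over the reflected translate -/
theorem lint_refl (S : Set (E m)) (hS : MeasurableSet S) (x : E m) :
    ∫⁻ z, ind S (x - z) = volume S := by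
  have h1 := lintegral_sub_left_eq_self (fun z => ind S z) x (μ := (volume : Measure (E m)))
  rw [h1]
  unfold ind
  rw [lintegral_indicator_one hS]

theorem lint_trans (S : Set (E m)) (hS : MeasurableSet S) (x : E m) :
    ∫⁻ z, ind S (z + x) = volume S := by
  have h1 := lintegral_add_right_eq_self (fun z => ind S z) x (μ := (volume : Measure (E m)))
  rw [h1]
  unfold ind
  rw [lintegral_indicator_one hS]

/-- a square of an average -/
theorem sq_int (P S : Set (E m)) (hP : MeasurableSet P) (hS : MeasurableSet S)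
    (hPS : ∀ x ∈ P, ∀ y ∈ P, y - x ∈ S)
    (F : E m → ℝ≥0∞) (hF : Measurable F) (φ : E m → E m → E m) (hφ : Measurable (Function.uncurry φ))
    (hφd : ∀ x y z, φ y z - φ x z = y - x)
    (hφv : ∀ x, ∫⁻ z, ind P (φ x z) = volume P) :
    ∫⁻ z, (∫⁻ x, F x * ind P (φ x z)) ^ 2 ≤ volume P * En (ind S) F := by
  have hPm := ind_meas hP
  have hSm := ind_meas hS
  have hφ1 : ∀ z, Measurable fun x => φ x z := fun z => hφ.of_uncurry_right
  have hφ2 : ∀ x, Measurable fun z => φ x z := fun x => hφ.of_uncurry_left
  have h1 : ∀ z, (∫⁻ x, F x * ind P (φ x z)) ^ 2 =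
      ∫⁻ x, ∫⁻ y, F x * F y * (ind P (φ x z) * ind P (φ y z)) := by
    intro z
    have m1 : Measurable fun x => F x * ind P (φ x z) := hF.mul (hPm.comp (hφ1 z))
    rw [sq, ← lintegral_mul_const _ m1]
    refine lintegral_congr fun x => ?_
    rw [← lintegral_const_mul _ m1]
    refine lintegral_congr fun y => ?_
    ring
  simp_rw [h1]
  have hm3 : Measurable fun q : (E m × E m) × E m =>
      F q.1.1 * F q.1.2 * (ind P (φ q.1.1 q.2) * ind P (φ q.1.2 q.2)) := by
    have a1 : Measurable fun q : (E m × E m) × E m => φ q.1.1 q.2 :=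
      hφ.comp ((measurable_fst.comp measurable_fst).prodMk measurable_snd)
    have a2 : Measurable fun q : (E m × E m) × E m => φ q.1.2 q.2 :=
      hφ.comp ((measurable_snd.comp measurable_fst).prodMk measurable_snd)
    exact ((hF.comp (measurable_fst.comp measurable_fst)).mul
      (hF.comp (measurable_snd.comp measurable_fst))).mul ((hPm.comp a1).mul (hPm.comp a2))
  have h2 : ∀ z, ∫⁻ x, ∫⁻ y, F x * F y * (ind P (φ x z) * ind P (φ y z)) =
      ∫⁻ w : E m × E m, F w.1 * F w.2 * (ind P (φ w.1 z) * ind P (φ w.2 z)) := by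
    intro z
    have a1 : Measurable fun w : E m × E m => F w.1 * F w.2 * (ind P (φ w.1 z) * ind P (φ w.2 z)) := by
      have b1 : Measurable fun w : E m × E m => (w, z) := by fun_prop
      exact hm3.comp b1
    exact (lintegral_prod (μ := (volume : Measure (E m))) (ν := (volume : Measure (E m))) _
      a1.aemeasurable).symm
  simp_rw [h2]
  have h3 : ∫⁻ z, ∫⁻ w : E m × E m, F w.1 * F w.2 * (ind P (φ w.1 z) * ind P (φ w.2 z)) =
      ∫⁻ w : E m × E m, ∫⁻ z, F w.1 * F w.2 * (ind P (φ w.1 z) * ind P (φ w.2 z)) := by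
    rw [lintegral_lintegral_swap]
    exact (hm3.comp measurable_swap).aemeasurable
  rw [h3]
  have h4 : ∀ w : E m × E m, ∫⁻ z, F w.1 * F w.2 * (ind P (φ w.1 z) * ind P (φ w.2 z)) ≤
      volume P * (F w.1 * F w.2 * ind S (w.2 - w.1)) := by
    intro w
    by_cases hw : w.2 - w.1 ∈ S
    · rw [ind_mem hw, mul_one]
      have a1 : Measurable fun z => ind P (φ w.1 z) := hPm.comp (hφ2 _)
      calc ∫⁻ z, F w.1 * F w.2 * (ind P (φ w.1 z) * ind P (φ w.2 z))
          ≤ ∫⁻ z, F w.1 * F w.2 * ind P (φ w.1 z) := by
            refine lintegral_mono fun z => mul_le_mul' le_rfl ?_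
            calc ind P (φ w.1 z) * ind P (φ w.2 z) ≤ ind P (φ w.1 z) * 1 :=
                  mul_le_mul' le_rfl (ind_le _)
              _ = _ := mul_one _
        _ = F w.1 * F w.2 * volume P := by rw [lintegral_const_mul _ a1, hφv]
        _ = _ := by ring
    · have : ∀ z, F w.1 * F w.2 * (ind P (φ w.1 z) * ind P (φ w.2 z)) = 0 := by
        intro z
        by_cases h5 : φ w.1 z ∈ P
        · by_cases h6 : φ w.2 z ∈ P
          · exact absurd (by have := hPS _ h5 _ h6; rwa [hφd] at this) hw
          · rw [ind_not h6, mul_zero, mul_zero]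
        · rw [ind_not h5, zero_mul, mul_zero]
      simp_rw [this]
      rw [lintegral_zero]
      exact zero_le
  refine (lintegral_mono h4).trans (le_of_eq ?_)
  have hm5 : Measurable fun w : E m × E m => F w.1 * F w.2 * ind S (w.2 - w.1) :=
    ((hF.comp measurable_fst).mul (hF.comp measurable_snd)).mul
      (hSm.comp (measurable_snd.sub measurable_fst))
  rw [lintegral_const_mul _ hm5]
  congr 1
  unfold En
  exact lintegral_prod (μ := (volume : Measure (E m))) (ν := (volume : Measure (E m))) _
      hm5.aemeasurable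

/-- **centring** -/
theorem center (D P S : Set (E m)) (hD : MeasurableSet D) (hP : MeasurableSet P)
    (hS : MeasurableSet S) (hDP : D ⊆ P) (hDD : ∀ x ∈ D, ∀ y ∈ D, y - x ∈ P)
    (hPS : ∀ x ∈ P, ∀ y ∈ P, y - x ∈ S)
    (a : E m) (F G : E m → ℝ≥0∞) (hF : Measurable F) (hG : Measurable G) :
    volume D * ∫⁻ x, ∫⁻ y, F x * G y * ind D (x + y - a) ≤
      volume P * (En (ind S) F ^ (1 / 2 : ℝ) * En (ind S) G ^ (1 / 2 : ℝ)) := by
  have hPm := ind_meas hP
  have hDm := ind_meas hD
  -- the pointwise inequality
  have hpt : ∀ x y : E m, volume D * ind D (x + y - a) ≤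
      ∫⁻ z, ind P (x - z) * ind P (y - a + z) := by
    intro x y
    by_cases h : x + y - a ∈ D
    · rw [ind_mem h, mul_one, ← lint_refl D hD x]
      refine lintegral_mono fun z => ?_
      by_cases hz : x - z ∈ D
      · have h2 : y - a + z ∈ P := by
          have := hDD _ hz _ h
          have e : x + y - a - (x - z) = y - a + z := by abel
          rwa [e] at this
        rw [ind_mem hz, ind_mem (hDP hz), ind_mem h2, one_mul]
      · rw [ind_not hz]; exact zero_le
    · rw [ind_not h, mul_zero]; exact zero_le
  -- the triple integral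
  have hm3 : Measurable fun q : (E m × E m) × E m =>
      (F q.1.1 * ind P (q.1.1 - q.2)) * (G q.1.2 * ind P (q.1.2 - a + q.2)) := by
    have a1 : Measurable fun q : (E m × E m) × E m => q.1.1 - q.2 := by fun_prop
    have a2 : Measurable fun q : (E m × E m) × E m => q.1.2 - a + q.2 := by fun_prop
    exact ((hF.comp (measurable_fst.comp measurable_fst)).mul (hPm.comp a1)).mul
      ((hG.comp (measurable_snd.comp measurable_fst)).mul (hPm.comp a2))
  have hDm2 : Measurable fun w : E m × E m => F w.1 * G w.2 * ind D (w.1 + w.2 - a) := by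
    have a1 : Measurable fun w : E m × E m => w.1 + w.2 - a := by fun_prop
    exact ((hF.comp measurable_fst).mul (hG.comp measurable_snd)).mul (hDm.comp a1)
  have h1 : ∫⁻ x, ∫⁻ y, F x * G y * ind D (x + y - a) =
      ∫⁻ w : E m × E m, F w.1 * G w.2 * ind D (w.1 + w.2 - a) :=
    (lintegral_prod (μ := (volume : Measure (E m))) (ν := (volume : Measure (E m))) _
      hDm2.aemeasurable).symm
  rw [h1, ← lintegral_const_mul _ hDm2]
  set A : E m → ℝ≥0∞ := fun z => ∫⁻ x, F x * ind P (x - z) with hA
  set B : E m → ℝ≥0∞ := fun z => ∫⁻ y, G y * ind P (y - a + z) with hB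
  have hAm : Measurable A := by
    have : Measurable fun q : E m × E m => F q.2 * ind P (q.2 - q.1) :=
      (hF.comp measurable_snd).mul (hPm.comp (measurable_snd.sub measurable_fst))
    exact this.lintegral_prod_right'
  have hBm : Measurable B := by
    have : Measurable fun q : E m × E m => G q.2 * ind P (q.2 - a + q.1) := by
      have a1 : Measurable fun q : E m × E m => q.2 - a + q.1 := by fun_prop
      exact (hG.comp measurable_snd).mul (hPm.comp a1)
    exact this.lintegral_prod_right'
  have h2 : ∫⁻ w : E m × E m, volume D * (F w.1 * G w.2 * ind D (w.1 + w.2 - a)) ≤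
      ∫⁻ z, A z * B z := by
    calc ∫⁻ w : E m × E m, volume D * (F w.1 * G w.2 * ind D (w.1 + w.2 - a))
        ≤ ∫⁻ w : E m × E m, ∫⁻ z, (F w.1 * ind P (w.1 - z)) * (G w.2 * ind P (w.2 - a + z)) := by
          refine lintegral_mono fun w => ?_
          calc volume D * (F w.1 * G w.2 * ind D (w.1 + w.2 - a))
              = F w.1 * G w.2 * (volume D * ind D (w.1 + w.2 - a)) := by ring
            _ ≤ F w.1 * G w.2 * ∫⁻ z, ind P (w.1 - z) * ind P (w.2 - a + z) :=
                mul_le_mul' le_rfl (hpt _ _)
            _ = ∫⁻ z, F w.1 * G w.2 * (ind P (w.1 - z) * ind P (w.2 - a + z)) := by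
                rw [lintegral_const_mul]
                have a1 : Measurable fun z : E m => w.1 - z := by fun_prop
                have a2 : Measurable fun z : E m => w.2 - a + z := by fun_prop
                exact (hPm.comp a1).mul (hPm.comp a2)
            _ = _ := lintegral_congr fun z => by ring
      _ = ∫⁻ z, ∫⁻ w : E m × E m, (F w.1 * ind P (w.1 - z)) * (G w.2 * ind P (w.2 - a + z)) := by
          rw [lintegral_lintegral_swap]
          exact hm3.aemeasurable
      _ = ∫⁻ z, A z * B z := by
          refine lintegral_congr fun z => ?_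
          have a1 : Measurable fun x : E m => F x * ind P (x - z) := by
            have : Measurable fun x : E m => x - z := by fun_prop
            exact hF.mul (hPm.comp this)
          have a2 : Measurable fun y : E m => G y * ind P (y - a + z) := by
            have : Measurable fun y : E m => y - a + z := by fun_prop
            exact hG.mul (hPm.comp this)
          exact lintegral_prod_mul (μ := (volume : Measure (E m))) (ν := (volume : Measure (E m)))
            a1.aemeasurable a2.aemeasurable
  refine h2.trans ?_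
  have hCS := ENNReal.lintegral_mul_le_Lp_mul_Lq (volume : Measure (E m)) Real.HolderConjugate.two_two
    hAm.aemeasurable hBm.aemeasurable
  refine (le_trans (le_of_eq ?_) hCS).trans ?_
  · rfl
  have hA2 : ∫⁻ z, A z ^ (2 : ℝ) ≤ volume P * En (ind S) F := by
    have := sq_int P S hP hS hPS F hF (fun x z => x - z) (by fun_prop) (fun x y z => by abel)
      (fun x => lint_refl P hP x)
    simp_rw [ENNReal.rpow_two]
    exact this
  have hB2 : ∫⁻ z, B z ^ (2 : ℝ) ≤ volume P * En (ind S) G := by
    have := sq_int P S hP hS hPS G hG (fun y z => y - a + z) (by fun_prop) (fun x y z => by abel)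
      (fun x => by
        have h5 := lint_trans P hP (x - a)
        refine (lintegral_congr fun z => ?_).trans h5
        rw [add_comm])
    simp_rw [ENNReal.rpow_two]
    exact this
  calc (∫⁻ z, A z ^ (2 : ℝ)) ^ (1 / 2 : ℝ) * (∫⁻ z, B z ^ (2 : ℝ)) ^ (1 / 2 : ℝ)
      ≤ (volume P * En (ind S) F) ^ (1 / 2 : ℝ) * (volume P * En (ind S) G) ^ (1 / 2 : ℝ) := by
        gcongr
    _ = _ := by
        rw [ENNReal.mul_rpow_of_nonneg _ _ (by norm_num), ENNReal.mul_rpow_of_nonneg _ _ (by norm_num)]
        have : volume P ^ (1 / 2 : ℝ) * volume P ^ (1 / 2 : ℝ) = volume P := by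
          rw [← ENNReal.rpow_add_of_nonneg _ _ (by norm_num) (by norm_num)]
          norm_num
        calc _ = (volume P ^ (1 / 2 : ℝ) * volume P ^ (1 / 2 : ℝ)) *
              (En (ind S) F ^ (1 / 2 : ℝ) * En (ind S) G ^ (1 / 2 : ℝ)) := by ring
          _ = _ := by rw [this]

end Pool.Agent.N484.KC
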