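import Mathlib
import Pool.Agent.N484.KC.B
import Pool.Agent.TH705.RR.Vol
set_option autoImplicit false

/-! The bush of centred tubes. -/

namespace Pool.Agent.N484.KC

open MeasureTheory Set Metric
open scoped ENNReal Pointwise
open Pool.Agent.TH705.RR (Rod vol_rod vb vb_pos sn perp_norm sn_comm count vol_cball)

variable {n : ℕ}

/-- the centred cylinder with axis `e`, half length `l` and radius `w` -/
def cyl (e : E n) (l w : ℝ) : Set (E n) :=
  {x | |inner ℝ x e| ≤ l ∧ ‖x - (inner ℝ x e) • e‖ ≤ w}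

theorem cyl_closed (e : E n) (l w : ℝ) : IsClosed (cyl e l w) := by
  unfold cyl
  rw [ofPred_and]
  refine IsClosed.inter ?_ ?_
  · exact isClosed_le (by fun_prop) continuous_const
  · exact isClosed_le (by fun_prop) continuous_const

theorem cyl_meas (e : E n) (l w : ℝ) : MeasurableSet (cyl e l w) := (cyl_closed e l w).measurableSet

theorem cyl_mono (e : E n) {l l' w w' : ℝ} (hl : l ≤ l') (hw : w ≤ w') : cyl e l w ⊆ cyl e l' w' :=
  fun _ hx => ⟨hx.1.trans hl, hx.2.trans hw⟩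

theorem cyl_sub (e : E n) {l w : ℝ} {x y : E n} (hx : x ∈ cyl e l w) (hy : y ∈ cyl e l w) :
    y - x ∈ cyl e (2 * l) (2 * w) := by
  refine ⟨?_, ?_⟩
  · rw [inner_sub_left]
    calc |inner ℝ y e - inner ℝ x e| ≤ |inner ℝ y e| + |inner ℝ x e| := abs_sub _ _
      _ ≤ l + l := add_le_add hy.1 hx.1
      _ = _ := by ring
  · have e1 : y - x - (inner ℝ (y - x) e) • e =
        (y - (inner ℝ y e) • e) - (x - (inner ℝ x e) • e) := by
      rw [inner_sub_left, sub_smul]; abel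
    rw [e1]
    calc _ ≤ ‖y - (inner ℝ y e) • e‖ + ‖x - (inner ℝ x e) • e‖ := norm_sub_le _ _
      _ ≤ w + w := add_le_add hy.2 hx.2
      _ = _ := by ring

theorem cyl_neg (e : E n) (l w : ℝ) (x : E n) : -x ∈ cyl e l w ↔ x ∈ cyl e l w := by
  unfold cyl
  simp only [mem_ofPred_eq, inner_neg_left, abs_neg, neg_smul]
  have : -x - -((inner ℝ x e) • e) = -(x - (inner ℝ x e) • e) := by abel
  rw [this, norm_neg]

theorem cyl_two (e : E n) (l w : ℝ) : cyl e (2 * l) (2 * w) = (2 : ℝ) • cyl e l w := by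
  ext x
  rw [mem_smul_set_iff_inv_smul_mem₀ (by norm_num : (2 : ℝ) ≠ 0)]
  unfold cyl
  simp only [mem_ofPred_eq, inner_smul_left, conj_trivial]
  have e1 : (2 : ℝ)⁻¹ • x - (2⁻¹ * inner ℝ x e) • e = (2 : ℝ)⁻¹ • (x - (inner ℝ x e) • e) := by
    rw [smul_sub, smul_smul]
  rw [e1, norm_smul, abs_mul]
  have e2 : |(2 : ℝ)⁻¹| = 2⁻¹ := abs_of_pos (by norm_num)
  have e3 : ‖(2 : ℝ)⁻¹‖ = 2⁻¹ := by rw [Real.norm_eq_abs, e2]
  rw [e2, e3]
  constructor
  · rintro ⟨h1, h2⟩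
    constructor <;> linarith
  · rintro ⟨h1, h2⟩
    constructor <;> linarith

theorem vol_two (e : E n) (l w : ℝ) :
    volume (cyl e (2 * l) (2 * w)) = 2 ^ n * volume (cyl e l w) := by
  rw [cyl_two, Measure.addHaar_smul, finrank_euclideanSpace_fin, abs_of_pos (by positivity),
    ENNReal.ofReal_pow (by norm_num)]
  norm_num

theorem norm_sq_split {e : E n} (he : ‖e‖ = 1) (x : E n) :
    ‖x‖ ^ 2 = (inner ℝ x e) ^ 2 + ‖x - (inner ℝ x e) • e‖ ^ 2 := by
  rw [norm_sub_sq_real, norm_smul, he, mul_one, inner_smul_right, Real.norm_eq_abs, sq_abs]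
  ring

theorem cyl_bdd {e : E n} (he : ‖e‖ = 1) {l w : ℝ} (x : E n) (hx : x ∈ cyl e l w) :
    ‖x‖ ≤ l + w := by
  have e1 : x = (inner ℝ x e) • e + (x - (inner ℝ x e) • e) := by abel
  rw [e1]
  refine (norm_add_le _ _).trans (add_le_add ?_ hx.2)
  rw [norm_smul, he, mul_one, Real.norm_eq_abs]
  exact hx.1

theorem vol_fin {e : E n} (he : ‖e‖ = 1) (l w : ℝ) : volume (cyl e l w) ≠ ∞ := by
  have : cyl e l w ⊆ closedBall 0 (l + w) := fun x hx => by
    rw [mem_closedBall_zero_iff]; exact cyl_bdd he x hx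
  exact ne_top_of_le_ne_top measure_closedBall_lt_top.ne (measure_mono this)

theorem abs_inner_le {e : E n} (he : ‖e‖ = 1) (x : E n) : |inner ℝ x e| ≤ ‖x‖ := by
  have := abs_real_inner_le_norm x e
  rwa [he, mul_one] at this

theorem perp_le {e : E n} (he : ‖e‖ = 1) (x : E n) : ‖x - (inner ℝ x e) • e‖ ≤ ‖x‖ := by
  have h1 := norm_sq_split he x
  refine (abs_le_of_sq_le_sq' ?_ (norm_nonneg _)).2
  nlinarith [sq_nonneg (inner ℝ x e)]

theorem vol_pos' {e : E n} (he : ‖e‖ = 1) {l w : ℝ} (hl : 0 < l) (hw : 0 < w) :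
    volume (cyl e l w) ≠ 0 := by
  have h0 : 0 < min l w := lt_min hl hw
  have : ball (0 : E n) (min l w) ⊆ cyl e l w := by
    intro x hx
    rw [mem_ball_zero_iff] at hx
    exact ⟨(abs_inner_le he x).trans (hx.le.trans (min_le_left _ _)),
      (perp_le he x).trans (hx.le.trans (min_le_right _ _))⟩
  exact ((measure_ball_pos volume (0 : E n) h0).trans_le (measure_mono this)).ne'

/-- the constant of the volume bound -/
noncomputable def cV (n : ℕ) : ℝ := 2 ^ n * vb n * 16 * 4 ^ (n - 1)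

theorem cV_pos (n : ℕ) : 0 < cV n := by
  have := vb_pos n
  unfold cV; positivity

/-- the part of a centred tube near the origin -/
theorem near (hn : 1 ≤ n) {e : E n} (he : ‖e‖ = 1) {δ r : ℝ} (hδ : 0 < δ) (hr : 0 < r) :
    volume {x | x ∈ cyl e 2 (4 * δ) ∧ ‖x‖ ≤ 2 * r} ≤ ENNReal.ofReal (cV n * r * δ ^ (n - 1)) := by
  have hv := vb_pos n
  rcases le_total δ r with h | h
  · have hsub : {x | x ∈ cyl e 2 (4 * δ) ∧ ‖x‖ ≤ 2 * r} ⊆ Rod 0 e (2 * r) (4 * δ) := by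
      rintro x ⟨h1, h2⟩
      refine ⟨inner ℝ x e, (abs_inner_le he x).trans h2, ?_⟩
      rw [sub_zero]
      exact h1.2
    refine (measure_mono hsub).trans ((vol_rod hn 0 he (by positivity) (by positivity)).trans ?_)
    refine ENNReal.ofReal_le_ofReal ?_
    have h3 : 2 * (2 * r) + 3 * (4 * δ) ≤ 16 * r := by linarith
    have h4 : (4 * δ) ^ (n - 1) = 4 ^ (n - 1) * δ ^ (n - 1) := mul_pow _ _ _
    rw [h4]
    unfold cV
    calc 2 ^ n * vb n * (2 * (2 * r) + 3 * (4 * δ)) * (4 ^ (n - 1) * δ ^ (n - 1))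
        ≤ 2 ^ n * vb n * (16 * r) * (4 ^ (n - 1) * δ ^ (n - 1)) := by gcongr
      _ = _ := by ring
  · have hsub : {x | x ∈ cyl e 2 (4 * δ) ∧ ‖x‖ ≤ 2 * r} ⊆ closedBall 0 (2 * r) := by
      rintro x ⟨_, h2⟩
      rw [mem_closedBall_zero_iff]; exact h2
    refine (measure_mono hsub).trans ?_
    rw [vol_cball _ (by positivity)]
    refine ENNReal.ofReal_le_ofReal ?_
    obtain ⟨k, rfl⟩ : ∃ k, n = k + 1 := ⟨n - 1, by omega⟩
    simp only [Nat.add_sub_cancel]
    unfold cV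
    simp only [Nat.add_sub_cancel]
    have h3 : r ^ k ≤ δ ^ k := by gcongr
    have h4 : (1 : ℝ) ≤ 16 * 4 ^ k := by
      have : (1 : ℝ) ≤ 4 ^ k := one_le_pow₀ (by norm_num)
      linarith
    calc (2 * r) ^ (k + 1) * vb (k + 1) = 2 ^ (k + 1) * vb (k + 1) * r * r ^ k := by ring
      _ ≤ 2 ^ (k + 1) * vb (k + 1) * r * δ ^ k := by gcongr
      _ = 2 ^ (k + 1) * vb (k + 1) * 1 * r * δ ^ k := by ring
      _ ≤ 2 ^ (k + 1) * vb (k + 1) * (16 * 4 ^ k) * r * δ ^ k := by gcongr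
      _ = _ := by ring

/-- the multiplicity of the centred tubes -/
theorem mult_le (hn : 1 ≤ n) : ∃ K : ℝ, 1 ≤ K ∧ ∀ (δ : ℝ), 0 < δ → δ < 1 → ∀ {ι : Type} [Fintype ι]
    (e : ι → E n), (∀ i, ‖e i‖ = 1) → (∀ i j, i ≠ j → δ ≤ ‖e i - e j‖) → ∀ (x : E n),
    (∑ i, ind (cyl (e i) 2 (4 * δ)) x) * ENNReal.ofReal (‖x‖ ^ (n - 1)) ≤ ENNReal.ofReal K := by
  obtain ⟨K, hK, hc⟩ := count hn
  refine ⟨K * 6 ^ (n - 1), ?_, ?_⟩
  · have : (1 : ℝ) ≤ 6 ^ (n - 1) := one_le_pow₀ (by norm_num)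
    nlinarith
  intro δ hδ hδ1 ι _ e he hsep x
  classical
  set J : Finset ι := Finset.univ.filter fun i => x ∈ cyl (e i) 2 (4 * δ) with hJ
  have hsum : ∑ i, ind (cyl (e i) 2 (4 * δ)) x = (J.card : ℝ≥0∞) := by
    rw [hJ, Finset.card_filter]
    push_cast
    refine Finset.sum_congr rfl fun i _ => ?_
    by_cases h : x ∈ cyl (e i) 2 (4 * δ)
    · rw [ind_mem h, if_pos h]
    · rw [ind_not h, if_neg h]
  rw [hsum]
  rcases J.eq_empty_or_nonempty with hJe | ⟨i₀, hi₀⟩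
  · rw [hJe]; simp
  have hx6 : ‖x‖ ≤ 6 := by
    have h1 : x ∈ cyl (e i₀) 2 (4 * δ) := (Finset.mem_filter.1 hi₀).2
    have h2 := cyl_bdd (he i₀) x h1
    linarith
  rcases eq_or_ne x 0 with hx0 | hx0
  · -- the origin
    rcases Nat.lt_or_ge 1 n with hn1 | hn1
    · rw [hx0, norm_zero, zero_pow (by omega), ENNReal.ofReal_zero, mul_zero]
      exact zero_le
    · -- dimension one
      have hn' : n = 1 := by omega
      subst hn'
      have h3 := hc δ hδ hδ1 e he hsep (e i₀) (he i₀) J 1 hδ1.le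
        (fun j _ => Pool.Agent.TH705.RR.sn_le_one _ _)
      simp only [Nat.sub_self, pow_zero, mul_one] at h3 ⊢
      rw [ENNReal.ofReal_one, mul_one, ← ENNReal.ofReal_natCast]
      exact ENNReal.ofReal_le_ofReal h3
  have hx : 0 < ‖x‖ := norm_pos_iff.2 hx0
  set w : E n := ‖x‖⁻¹ • x with hw
  have hw1 : ‖w‖ = 1 := by
    rw [hw, norm_smul, norm_inv, norm_norm, inv_mul_cancel₀ hx.ne']
  have hsn : ∀ j ∈ J, sn w (e j) ≤ 6 * δ / ‖x‖ := by
    intro j hj
    have h1 : x ∈ cyl (e j) 2 (4 * δ) := (Finset.mem_filter.1 hj).2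
    rw [sn_comm, ← perp_norm (he j) hw1]
    have e1 : w - (inner ℝ (e j) w) • e j = ‖x‖⁻¹ • (x - (inner ℝ x (e j)) • e j) := by
      rw [hw, inner_smul_right, real_inner_comm, smul_sub, smul_smul]
    rw [e1, norm_smul, norm_inv, norm_norm, inv_mul_eq_div]
    gcongr
    exact h1.2.trans (by linarith)
  have hy : δ ≤ 6 * δ / ‖x‖ := by
    rw [le_div_iff₀ hx]; nlinarith
  have h3 := hc δ hδ hδ1 e he hsep w hw1 J (6 * δ / ‖x‖) hy hsn
  have e2 : 6 * δ / ‖x‖ / δ = 6 / ‖x‖ := by field_simp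
  rw [e2] at h3
  rw [← ENNReal.ofReal_natCast, ← ENNReal.ofReal_mul (by positivity)]
  refine ENNReal.ofReal_le_ofReal ?_
  calc (J.card : ℝ) * ‖x‖ ^ (n - 1) ≤ K * (6 / ‖x‖) ^ (n - 1) * ‖x‖ ^ (n - 1) := by gcongr
    _ = K * (6 / ‖x‖ * ‖x‖) ^ (n - 1) := by rw [mul_pow]; ring
    _ = K * 6 ^ (n - 1) := by rw [div_mul_cancel₀ _ hx.ne']

/-- one tube -/
theorem one_tube (hn : 1 ≤ n) {e : E n} (he : ‖e‖ = 1) {δ : ℝ} (hδ : 0 < δ) (B : Set (E n))
    (hB : MeasurableSet B) :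
    volume (B ∩ cyl e 2 (4 * δ)) ^ n ≤ ENNReal.ofReal (2 * (cV n * δ ^ (n - 1)) ^ (n - 1)) *
      ∫⁻ x in B ∩ cyl e 2 (4 * δ), ENNReal.ofReal (‖x‖ ^ (n - 1)) := by
  set S := cyl e 2 (4 * δ) with hS
  have hSm : MeasurableSet S := cyl_meas _ _ _
  have hfin : volume (B ∩ S) ≠ ∞ := ne_top_of_le_ne_top (vol_fin he _ _) (measure_mono inter_subset_right)
  rcases eq_or_ne (volume (B ∩ S)) 0 with h0 | h0
  · rw [h0, zero_pow (by omega)]; exact zero_le
  set β : ℝ := (volume (B ∩ S)).toReal with hβ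
  have hβ0 : 0 < β := ENNReal.toReal_pos h0 hfin
  have hβe : volume (B ∩ S) = ENNReal.ofReal β := (ENNReal.ofReal_toReal hfin).symm
  set A : ℝ := cV n * δ ^ (n - 1) with hA
  have hA0 : 0 < A := mul_pos (cV_pos n) (by positivity)
  set r : ℝ := β / (2 * A) with hr
  have hr0 : 0 < r := by positivity
  have hnear := near hn he hδ hr0
  have e1 : cV n * r * δ ^ (n - 1) = β / 2 := by
    have : cV n * r * δ ^ (n - 1) = A * r := by rw [hA]; ring
    rw [this, hr]; field_simp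
  rw [e1] at hnear
  set T : Set (E n) := (B ∩ S) ∩ {x | 2 * r < ‖x‖} with hT
  have hTm : MeasurableSet T := (hB.inter hSm).inter (measurableSet_lt measurable_const measurable_norm)
  have hcov : B ∩ S ⊆ {x | x ∈ cyl e 2 (4 * δ) ∧ ‖x‖ ≤ 2 * r} ∪ T := by
    intro x hx
    rcases le_or_gt ‖x‖ (2 * r) with h | h
    · exact Or.inl ⟨hx.2, h⟩
    · exact Or.inr ⟨hx, h⟩
  have hTv : ENNReal.ofReal (β / 2) ≤ volume T := by
    have h1 : ENNReal.ofReal β ≤ ENNReal.ofReal (β / 2) + volume T := by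
      rw [← hβe]
      exact (measure_mono hcov).trans ((measure_union_le _ _).trans (by gcongr))
    have h2 : ENNReal.ofReal β = ENNReal.ofReal (β / 2) + ENNReal.ofReal (β / 2) := by
      rw [← ENNReal.ofReal_add (by positivity) (by positivity)]; congr 1; ring
    rw [h2] at h1
    exact (ENNReal.add_le_add_iff_left ENNReal.ofReal_ne_top).1 h1
  have hint : ENNReal.ofReal ((2 * r) ^ (n - 1) * (β / 2)) ≤
      ∫⁻ x in B ∩ S, ENNReal.ofReal (‖x‖ ^ (n - 1)) := by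
    calc ENNReal.ofReal ((2 * r) ^ (n - 1) * (β / 2))
        = ENNReal.ofReal ((2 * r) ^ (n - 1)) * ENNReal.ofReal (β / 2) :=
          ENNReal.ofReal_mul (by positivity)
      _ ≤ ENNReal.ofReal ((2 * r) ^ (n - 1)) * volume T := by gcongr
      _ = ∫⁻ x in T, ENNReal.ofReal ((2 * r) ^ (n - 1)) := by
          rw [lintegral_const, Measure.restrict_apply_univ]
      _ ≤ ∫⁻ x in T, ENNReal.ofReal (‖x‖ ^ (n - 1)) := by
          refine setLIntegral_mono' hTm fun x hx => ENNReal.ofReal_le_ofReal ?_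
          have : 2 * r ≤ ‖x‖ := le_of_lt hx.2
          gcongr
      _ ≤ _ := lintegral_mono_set inter_subset_left
  rw [hβe, ← ENNReal.ofReal_pow hβ0.le]
  calc ENNReal.ofReal (β ^ n)
      = ENNReal.ofReal (2 * A ^ (n - 1)) * ENNReal.ofReal ((2 * r) ^ (n - 1) * (β / 2)) := by
        rw [← ENNReal.ofReal_mul (by positivity)]
        congr 1
        have e2 : 2 * r = β / A := by rw [hr]; field_simp
        rw [e2]
        obtain ⟨k, rfl⟩ : ∃ k, n = k + 1 := ⟨n - 1, by omega⟩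
        simp only [Nat.add_sub_cancel]
        rw [div_pow, pow_succ]
        field_simp
    _ ≤ _ := by gcongr

/-- **the bush**: sum of the `n`-th powers -/
theorem bush (hn : 1 ≤ n) : ∃ C : ℝ, 0 < C ∧ ∀ (δ : ℝ), 0 < δ → δ < 1 → ∀ {ι : Type} [Fintype ι]
    (e : ι → E n), (∀ i, ‖e i‖ = 1) → (∀ i j, i ≠ j → δ ≤ ‖e i - e j‖) → ∀ B : Set (E n),
    MeasurableSet B →
    ∑ i, volume (B ∩ cyl (e i) 2 (4 * δ)) ^ n ≤
      ENNReal.ofReal (C * (δ ^ (n - 1)) ^ (n - 1)) * volume B := by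
  obtain ⟨K, hK, hmul⟩ := mult_le hn
  have hcV := cV_pos n
  refine ⟨2 * cV n ^ (n - 1) * K, by positivity, ?_⟩
  intro δ hδ hδ1 ι _ e he hsep B hB
  have hSm : ∀ i, MeasurableSet (cyl (e i) 2 (4 * δ)) := fun i => cyl_meas _ _ _
  have hA0 : 0 ≤ 2 * (cV n * δ ^ (n - 1)) ^ (n - 1) := by positivity
  calc ∑ i, volume (B ∩ cyl (e i) 2 (4 * δ)) ^ n
      ≤ ∑ i, ENNReal.ofReal (2 * (cV n * δ ^ (n - 1)) ^ (n - 1)) *
        ∫⁻ x in B, ind (cyl (e i) 2 (4 * δ)) x * ENNReal.ofReal (‖x‖ ^ (n - 1)) := by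
        refine Finset.sum_le_sum fun i _ => ?_
        refine (one_tube hn (he i) hδ B hB).trans (le_of_eq ?_)
        congr 1
        rw [inter_comm, ← Measure.restrict_restrict (hSm i), ← lintegral_indicator (hSm i)]
        refine lintegral_congr fun x => ?_
        by_cases h : x ∈ cyl (e i) 2 (4 * δ)
        · rw [indicator_of_mem h, ind_mem h, one_mul]
        · rw [indicator_of_notMem h, ind_not h, zero_mul]
    _ = ENNReal.ofReal (2 * (cV n * δ ^ (n - 1)) ^ (n - 1)) *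
        ∫⁻ x in B, (∑ i, ind (cyl (e i) 2 (4 * δ)) x) * ENNReal.ofReal (‖x‖ ^ (n - 1)) := by
        rw [← Finset.mul_sum]
        congr 1
        rw [← lintegral_finsetSum]
        · refine lintegral_congr fun x => ?_
          rw [Finset.sum_mul]
        · intro i _
          exact (ind_meas (hSm i)).mul (by fun_prop)
    _ ≤ ENNReal.ofReal (2 * (cV n * δ ^ (n - 1)) ^ (n - 1)) * (ENNReal.ofReal K * volume B) := by
        gcongr
        calc ∫⁻ x in B, (∑ i, ind (cyl (e i) 2 (4 * δ)) x) * ENNReal.ofReal (‖x‖ ^ (n - 1))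
            ≤ ∫⁻ x in B, ENNReal.ofReal K := lintegral_mono fun x => hmul δ hδ hδ1 e he hsep x
          _ = _ := by rw [lintegral_const, Measure.restrict_apply_univ]
    _ = _ := by
        rw [← mul_assoc, ← ENNReal.ofReal_mul hA0]
        congr 2
        rw [mul_pow]
        ring

end Pool.Agent.N484.KC
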