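import Mathlib
import Pool.Agent.N484.KC.C
set_option autoImplicit false

/-! The kernel of the centred tubes, and the bilinear inequality. -/

namespace Pool.Agent.N484.KC

open MeasureTheory Set Metric
open scoped ENNReal

variable {n : ℕ} {ι : Type} [Fintype ι]

/-- the kernel: the multiplicity function of the centred tubes, with coefficients -/
noncomputable def ker (δ : ℝ) (e : ι → E n) (c : ι → ℝ≥0∞) (x : E n) : ℝ≥0∞ :=
  ∑ i, c i * ind (cyl (e i) 2 (4 * δ)) x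

theorem ker_meas (δ : ℝ) (e : ι → E n) (c : ι → ℝ≥0∞) : Measurable (ker δ e c) := by
  unfold ker
  exact Finset.measurable_sum _ fun i _ => (ind_meas (cyl_meas _ _ _)).const_mul _

theorem ker_neg (δ : ℝ) (e : ι → E n) (c : ι → ℝ≥0∞) (x : E n) : ker δ e c (-x) = ker δ e c x := by
  unfold ker
  refine Finset.sum_congr rfl fun i _ => ?_
  congr 1
  by_cases h : x ∈ cyl (e i) 2 (4 * δ)
  · rw [ind_mem h, ind_mem ((cyl_neg _ _ _ _).2 h)]
  · rw [ind_not h, ind_not (fun h' => h ((cyl_neg _ _ _ _).1 h'))]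

/-- the integral of the kernel over a set -/
theorem ker_int (δ : ℝ) (e : ι → E n) (c : ι → ℝ≥0∞) (B : Set (E n)) :
    ∫⁻ w in B, ker δ e c w = ∑ i, c i * volume (B ∩ cyl (e i) 2 (4 * δ)) := by
  unfold ker
  rw [lintegral_finsetSum _ fun i _ => (ind_meas (cyl_meas _ _ _)).const_mul _]
  refine Finset.sum_congr rfl fun i _ => ?_
  rw [lintegral_const_mul _ (ind_meas (cyl_meas _ _ _))]
  congr 1
  unfold ind
  rw [lintegral_indicator_one (cyl_meas _ _ _), Measure.restrict_apply (cyl_meas _ _ _), inter_comm]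

/-- passing to translates -/
theorem trans_of (k : E n → ℝ≥0∞) (g : ℝ≥0∞ → ℝ≥0∞)
    (h : ∀ B, MeasurableSet B → ∫⁻ w in B, k w ≤ g (volume B)) (B : Set (E n))
    (hB : MeasurableSet B) (y : E n) : ∫⁻ w in B, k (w - y) ≤ g (volume B) := by
  have hB' : MeasurableSet ((fun w => w + y) ⁻¹' B) := measurable_add_const y hB
  have h1 := h _ hB'
  rw [measure_preimage_add_right] at h1
  refine le_trans (le_of_eq ?_) h1
  have h2 := lintegral_sub_right_eq_self (((fun w => w + y) ⁻¹' B).indicator k) y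
    (μ := (volume : Measure (E n)))
  rw [← lintegral_indicator hB, ← lintegral_indicator hB', ← h2]
  refine lintegral_congr fun w => ?_
  by_cases hw : w ∈ B
  · rw [indicator_of_mem hw, indicator_of_mem (by
      show w - y + y ∈ B
      rwa [sub_add_cancel])]
  · rw [indicator_of_notMem hw, indicator_of_notMem (by
      show ¬ (w - y + y ∈ B)
      rwa [sub_add_cancel])]

/-- the endpoint estimate of the kernel, with coefficients -/
theorem ker_end (hn : 2 ≤ n) : ∃ C : ℝ, 0 < C ∧ ∀ (δ : ℝ), 0 < δ → δ < 1 →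
    ∀ {ι : Type} [Fintype ι] (e : ι → E n), (∀ i, ‖e i‖ = 1) →
    (∀ i j, i ≠ j → δ ≤ ‖e i - e j‖) → ∀ (c : ι → ℝ≥0∞) (B : Set (E n)), MeasurableSet B →
    ∫⁻ w in B, ker δ e c w ≤ ENNReal.ofReal (C * δ ^ (((n : ℝ) - 1) * (((n : ℝ) - 1) / n))) *
      (∑ i, c i ^ ((n : ℝ) / (n - 1))) ^ (((n : ℝ) - 1) / n) * volume B ^ (1 / (n : ℝ)) := by
  obtain ⟨C, hC, hb⟩ := bush (n := n) (by omega)
  have hn2 : (2 : ℝ) ≤ n := by exact_mod_cast hn
  have hn0 : (0 : ℝ) < n := by linarith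
  have hn1 : (0 : ℝ) < (n : ℝ) - 1 := by linarith
  refine ⟨C ^ (1 / (n : ℝ)), by positivity, ?_⟩
  intro δ hδ hδ1 ι _ e he hsep c B hB
  rw [ker_int _ _ _ _]
  have hpq : ((n : ℝ) / (n - 1)).HolderConjugate (n : ℝ) := by
    rw [Real.holderConjugate_iff]
    refine ⟨by rw [lt_div_iff₀ hn1]; linarith, ?_⟩
    field_simp
    ring
  have h1 := ENNReal.inner_le_Lp_mul_Lq Finset.univ c
    (fun i => volume (B ∩ cyl (e i) 2 (4 * δ))) hpq
  refine h1.trans ?_
  have h2 := hb δ hδ hδ1 e he hsep B hB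
  have e1 : 1 / ((n : ℝ) / (n - 1)) = ((n : ℝ) - 1) / n := by rw [one_div_div]
  rw [e1]
  have h3 : (∑ i, volume (B ∩ cyl (e i) 2 (4 * δ)) ^ (n : ℝ)) ^ (1 / (n : ℝ)) ≤
      ENNReal.ofReal (C ^ (1 / (n : ℝ)) * δ ^ (((n : ℝ) - 1) * (((n : ℝ) - 1) / n))) *
        volume B ^ (1 / (n : ℝ)) := by
    simp_rw [ENNReal.rpow_natCast]
    refine (ENNReal.rpow_le_rpow h2 (by positivity)).trans (le_of_eq ?_)
    have e5 : ((δ ^ (n - 1)) ^ (n - 1)) ^ (1 / (n : ℝ)) =
        δ ^ (((n : ℝ) - 1) * (((n : ℝ) - 1) / n)) := by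
      rw [← pow_mul, ← Real.rpow_natCast, ← Real.rpow_mul hδ.le]
      congr 1
      push_cast [Nat.cast_sub (show 1 ≤ n by omega)]
      ring
    rw [ENNReal.mul_rpow_of_nonneg _ _ (by positivity), ENNReal.ofReal_rpow_of_nonneg
      (by positivity) (by positivity), Real.mul_rpow hC.le (by positivity), e5]
  calc (∑ i, c i ^ ((n : ℝ) / (n - 1))) ^ (((n : ℝ) - 1) / n) *
        (∑ i, volume (B ∩ cyl (e i) 2 (4 * δ)) ^ (n : ℝ)) ^ (1 / (n : ℝ))
      ≤ (∑ i, c i ^ ((n : ℝ) / (n - 1))) ^ (((n : ℝ) - 1) / n) *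
        (ENNReal.ofReal (C ^ (1 / (n : ℝ)) * δ ^ (((n : ℝ) - 1) * (((n : ℝ) - 1) / n))) *
        volume B ^ (1 / (n : ℝ))) := by gcongr
    _ = _ := by ring

/-- the estimate of the kernel for all exponents -/
theorem ker_gen (hn : 2 ≤ n) {q : ℝ} (hq : (n : ℝ) / (n - 1) ≤ q) : ∃ C : ℝ, 0 < C ∧
    ∀ (δ : ℝ), 0 < δ → δ < 1 →
    ∀ {ι : Type} [Fintype ι] (e : ι → E n), (∀ i, ‖e i‖ = 1) →
    (∀ i j, i ≠ j → δ ≤ ‖e i - e j‖) → ∀ (B : Set (E n)), MeasurableSet B →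
    ∫⁻ w in B, ker δ e (fun _ => 1) w ≤ ENNReal.ofReal (C * (δ ^ (((n : ℝ) - 1) / q) *
      (Fintype.card ι : ℝ) ^ (1 - 1 / (q * ((n : ℝ) - 1))))) * volume B ^ (1 - 1 / q) := by
  obtain ⟨C, hC, hb⟩ := ker_end hn
  have hn2 : (2 : ℝ) ≤ n := by exact_mod_cast hn
  have hn0 : (0 : ℝ) < n := by linarith
  have hn1 : (0 : ℝ) < (n : ℝ) - 1 := by linarith
  have hq1 : 1 < q := lt_of_lt_of_le (by rw [lt_div_iff₀ hn1]; linarith) hq
  have hq0 : 0 < q := by linarith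
  -- the interpolation parameter
  set θ : ℝ := n / (q * (n - 1)) with hθ
  have hθ0 : 0 < θ := by positivity
  have hθ1 : θ ≤ 1 := by
    rw [hθ, div_le_one (by positivity)]
    rwa [div_le_iff₀ hn1] at hq
  refine ⟨C ^ θ, by positivity, ?_⟩
  intro δ hδ hδ1 ι _ e he hsep B hB
  set N : ℝ := (Fintype.card ι : ℝ) with hN
  have hN0 : 0 ≤ N := by rw [hN]; positivity
  have h1 := hb δ hδ hδ1 e he hsep (fun _ => 1) B hB
  have h2 : ∫⁻ w in B, ker δ e (fun _ => 1) w ≤ ENNReal.ofReal N * volume B := by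
    rw [ker_int _ _ _ _]
    calc ∑ i, 1 * volume (B ∩ cyl (e i) 2 (4 * δ)) ≤ ∑ _i : ι, volume B := by
          refine Finset.sum_le_sum fun i _ => ?_
          rw [one_mul]
          exact measure_mono inter_subset_left
      _ = _ := by
          rw [Finset.sum_const, Finset.card_univ, nsmul_eq_mul, hN, ENNReal.ofReal_natCast]
  have h3 : (∑ _i : ι, (1 : ℝ≥0∞) ^ ((n : ℝ) / (n - 1))) ^ (((n : ℝ) - 1) / n) =
      ENNReal.ofReal (N ^ (((n : ℝ) - 1) / n)) := by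
    simp only [ENNReal.one_rpow, Finset.sum_const, Finset.card_univ, nsmul_eq_mul, mul_one]
    rw [← ENNReal.ofReal_natCast, ENNReal.ofReal_rpow_of_nonneg (by positivity) (by positivity)]
  rw [h3, ← ENNReal.ofReal_mul (by positivity)] at h1
  set I : ℝ≥0∞ := ∫⁻ w in B, ker δ e (fun _ => 1) w with hI
  have h4 : I = I ^ θ * I ^ (1 - θ) := by
    rw [← ENNReal.rpow_add_of_nonneg _ _ hθ0.le (by linarith)]
    rw [add_sub_cancel, ENNReal.rpow_one]
  rw [h4]
  calc I ^ θ * I ^ (1 - θ)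
      ≤ (ENNReal.ofReal (C * δ ^ (((n : ℝ) - 1) * (((n : ℝ) - 1) / n)) * N ^ (((n : ℝ) - 1) / n)) *
          volume B ^ (1 / (n : ℝ))) ^ θ * (ENNReal.ofReal N * volume B) ^ (1 - θ) := by
        have : 0 ≤ 1 - θ := by linarith
        gcongr
    _ = ENNReal.ofReal ((C * δ ^ (((n : ℝ) - 1) * (((n : ℝ) - 1) / n)) * N ^ (((n : ℝ) - 1) / n)) ^ θ *
          N ^ (1 - θ)) * volume B ^ (1 / (n : ℝ) * θ + (1 - θ)) := by
        have h5 : 0 ≤ 1 - θ := by linarith
        rw [ENNReal.mul_rpow_of_nonneg _ _ hθ0.le, ENNReal.mul_rpow_of_nonneg _ _ h5,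
          ENNReal.ofReal_rpow_of_nonneg (by positivity) hθ0.le, ENNReal.ofReal_rpow_of_nonneg hN0 h5,
          ENNReal.ofReal_mul (by positivity), ENNReal.rpow_add_of_nonneg _ _ (by positivity) h5,
          ENNReal.rpow_mul]
        ring
    _ = _ := by
        have e1 : 1 / (n : ℝ) * θ + (1 - θ) = 1 - 1 / q := by
          rw [hθ]; field_simp; ring
        rw [e1]
        congr 2
        rw [Real.mul_rpow (by positivity) (by positivity), Real.mul_rpow hC.le (by positivity),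
          ← Real.rpow_mul hδ.le, ← Real.rpow_mul hN0]
        have e2 : ((n : ℝ) - 1) * (((n : ℝ) - 1) / n) * θ = ((n : ℝ) - 1) / q := by
          rw [hθ]; field_simp
        rw [e2]
        rcases eq_or_lt_of_le hN0 with hN' | hN'
        · -- no tubes
          rw [← hN']
          have p1 : 0 < ((n : ℝ) - 1) / n * θ := by positivity
          have p2 : 1 - 1 / (q * ((n : ℝ) - 1)) ≠ 0 := by
            have : 1 / (q * ((n : ℝ) - 1)) < 1 := by
              rw [div_lt_one (by positivity)]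
              nlinarith
            linarith
          rw [Real.zero_rpow p1.ne', Real.zero_rpow p2]
          ring
        · have e3 : N ^ (((n : ℝ) - 1) / n * θ) * N ^ (1 - θ) =
              N ^ (1 - 1 / (q * ((n : ℝ) - 1))) := by
            rw [← Real.rpow_add hN']
            congr 1
            rw [hθ]; field_simp; ring
          rw [← e3]
          ring

/-- Cauchy-Schwarz for the sum over the tubes -/
theorem cs_sum (c X Y : ι → ℝ≥0∞) :
    ∑ i, c i * (X i ^ (1 / 2 : ℝ) * Y i ^ (1 / 2 : ℝ)) ≤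
      (∑ i, c i * X i) ^ (1 / 2 : ℝ) * (∑ i, c i * Y i) ^ (1 / 2 : ℝ) := by
  have h := ENNReal.inner_le_Lp_mul_Lq Finset.univ (fun i => (c i * X i) ^ (1 / 2 : ℝ))
    (fun i => (c i * Y i) ^ (1 / 2 : ℝ)) Real.HolderConjugate.two_two
  have e : ∀ t : ℝ≥0∞, (t ^ (1 / 2 : ℝ)) ^ (2 : ℝ) = t := by
    intro t
    rw [← ENNReal.rpow_mul]
    norm_num
  simp_rw [e] at h
  refine le_trans (le_of_eq (Finset.sum_congr rfl fun i _ => ?_)) h
  rw [ENNReal.mul_rpow_of_nonneg _ _ (by norm_num), ENNReal.mul_rpow_of_nonneg _ _ (by norm_num)]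
  have : c i ^ (1 / 2 : ℝ) * c i ^ (1 / 2 : ℝ) = c i := by
    rw [← ENNReal.rpow_add_of_nonneg _ _ (by norm_num) (by norm_num)]
    norm_num
  calc c i * (X i ^ (1 / 2 : ℝ) * Y i ^ (1 / 2 : ℝ))
      = (c i ^ (1 / 2 : ℝ) * c i ^ (1 / 2 : ℝ)) * (X i ^ (1 / 2 : ℝ) * Y i ^ (1 / 2 : ℝ)) := by
        rw [this]
    _ = _ := by ring

/-- the energy is additive in the kernel -/
theorem En_ker (δ : ℝ) (e : ι → E n) (c : ι → ℝ≥0∞) (F : E n → ℝ≥0∞) (hF : Measurable F) :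
    ∑ i, c i * En (ind (cyl (e i) 2 (4 * δ))) F = En (ker δ e c) F := by
  have hSm : ∀ i, Measurable (ind (cyl (e i) 2 (4 * δ))) := fun i => ind_meas (cyl_meas _ _ _)
  unfold En ker
  have h1 : ∀ i, Measurable fun y => ∫⁻ w, F y * F w * ind (cyl (e i) 2 (4 * δ)) (w - y) := by
    intro i
    have : Measurable fun z : E n × E n => F z.1 * F z.2 * ind (cyl (e i) 2 (4 * δ)) (z.2 - z.1) :=
      ((hF.comp measurable_fst).mul (hF.comp measurable_snd)).mul
        ((hSm i).comp (measurable_snd.sub measurable_fst))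
    exact this.lintegral_prod_right'
  calc ∑ i, c i * ∫⁻ y, ∫⁻ w, F y * F w * ind (cyl (e i) 2 (4 * δ)) (w - y)
      = ∑ i, ∫⁻ y, c i * ∫⁻ w, F y * F w * ind (cyl (e i) 2 (4 * δ)) (w - y) := by
        refine Finset.sum_congr rfl fun i _ => ?_
        rw [lintegral_const_mul _ (h1 i)]
    _ = ∫⁻ y, ∑ i, c i * ∫⁻ w, F y * F w * ind (cyl (e i) 2 (4 * δ)) (w - y) := by
        rw [lintegral_finsetSum _ fun i _ => (h1 i).const_mul _]
    _ = _ := by
        refine lintegral_congr fun y => ?_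
        have h2 : ∀ i, Measurable fun w => F y * F w * ind (cyl (e i) 2 (4 * δ)) (w - y) := by
          intro i
          exact (hF.const_mul _).mul ((hSm i).comp (measurable_id.sub_const y))
        calc ∑ i, c i * ∫⁻ w, F y * F w * ind (cyl (e i) 2 (4 * δ)) (w - y)
            = ∑ i, ∫⁻ w, c i * (F y * F w * ind (cyl (e i) 2 (4 * δ)) (w - y)) := by
              refine Finset.sum_congr rfl fun i _ => ?_
              rw [lintegral_const_mul _ (h2 i)]
          _ = ∫⁻ w, ∑ i, c i * (F y * F w * ind (cyl (e i) 2 (4 * δ)) (w - y)) := by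
              rw [lintegral_finsetSum _ fun i _ => (h2 i).const_mul _]
          _ = _ := by
              refine lintegral_congr fun w => ?_
              rw [Finset.mul_sum]
              refine Finset.sum_congr rfl fun i _ => ?_
              ring

/-- the bilinear form of the tubes -/
noncomputable def form (δ : ℝ) (a e : ι → E n) (c : ι → ℝ≥0∞) (F G : E n → ℝ≥0∞) : ℝ≥0∞ :=
  ∑ i, c i * ∫⁻ x, ∫⁻ y, F x * G y * ind (cyl (e i) (1 / 2) δ) (x + y - a i)

/-- the form is bounded by the energies of the centred tubes -/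
theorem form_le (δ : ℝ) (hδ : 0 < δ) (a e : ι → E n) (he : ∀ i, ‖e i‖ = 1) (c : ι → ℝ≥0∞)
    (F G : E n → ℝ≥0∞) (hF : Measurable F) (hG : Measurable G) :
    form δ a e c F G ≤ 2 ^ n * (En (ker δ e c) F ^ (1 / 2 : ℝ) * En (ker δ e c) G ^ (1 / 2 : ℝ)) := by
  have h1 : ∀ i, ∫⁻ x, ∫⁻ y, F x * G y * ind (cyl (e i) (1 / 2) δ) (x + y - a i) ≤
      2 ^ n * (En (ind (cyl (e i) 2 (4 * δ))) F ^ (1 / 2 : ℝ) *
        En (ind (cyl (e i) 2 (4 * δ))) G ^ (1 / 2 : ℝ)) := by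
    intro i
    have hv0 := vol_pos' (he i) (show (0 : ℝ) < 1 / 2 by norm_num) hδ
    have hvt := vol_fin (he i) (1 / 2) δ
    have h2 := center (cyl (e i) (1 / 2) δ) (cyl (e i) 1 (2 * δ)) (cyl (e i) 2 (4 * δ))
      (cyl_meas _ _ _) (cyl_meas _ _ _) (cyl_meas _ _ _)
      (cyl_mono _ (by norm_num) (by linarith))
      (fun x hx y hy => by
        have := cyl_sub (e i) hx hy
        rwa [show (2 : ℝ) * (1 / 2) = 1 by norm_num] at this)
      (fun x hx y hy => by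
        have := cyl_sub (e i) hx hy
        rwa [show (2 : ℝ) * 1 = 2 by norm_num, show (2 : ℝ) * (2 * δ) = 4 * δ by ring] at this)
      (a i) F G hF hG
    have h3 : volume (cyl (e i) 1 (2 * δ)) = 2 ^ n * volume (cyl (e i) (1 / 2) δ) := by
      have := vol_two (e i) (1 / 2) δ
      rwa [show (2 : ℝ) * (1 / 2) = 1 by norm_num] at this
    rw [h3, mul_comm ((2 : ℝ≥0∞) ^ n), mul_assoc] at h2
    exact (ENNReal.mul_le_mul_iff_right hv0 hvt).1 h2
  unfold form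
  calc ∑ i, c i * ∫⁻ x, ∫⁻ y, F x * G y * ind (cyl (e i) (1 / 2) δ) (x + y - a i)
      ≤ ∑ i, c i * (2 ^ n * (En (ind (cyl (e i) 2 (4 * δ))) F ^ (1 / 2 : ℝ) *
        En (ind (cyl (e i) 2 (4 * δ))) G ^ (1 / 2 : ℝ))) :=
        Finset.sum_le_sum fun i _ => mul_le_mul' le_rfl (h1 i)
    _ = 2 ^ n * ∑ i, c i * (En (ind (cyl (e i) 2 (4 * δ))) F ^ (1 / 2 : ℝ) *
        En (ind (cyl (e i) 2 (4 * δ))) G ^ (1 / 2 : ℝ)) := by
        rw [Finset.mul_sum]
        refine Finset.sum_congr rfl fun i _ => ?_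
        ring
    _ ≤ 2 ^ n * ((∑ i, c i * En (ind (cyl (e i) 2 (4 * δ))) F) ^ (1 / 2 : ℝ) *
        (∑ i, c i * En (ind (cyl (e i) 2 (4 * δ))) G) ^ (1 / 2 : ℝ)) := by
        gcongr
        exact cs_sum _ _ _
    _ = _ := by rw [En_ker _ _ _ _ hF, En_ker _ _ _ _ hG]

/-- square roots of the Hardy-Littlewood-Sobolev inequality -/
theorem form_hls (δ : ℝ) (hδ : 0 < δ) (a e : ι → E n) (he : ∀ i, ‖e i‖ = 1) (c : ι → ℝ≥0∞)
    {r : ℝ} (hr : 1 < r) (M : ℝ≥0∞)
    (hM : ∀ B, MeasurableSet B → ∫⁻ w in B, ker δ e c w ≤ M * volume B ^ (1 / r))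
    (F G : E n → ℝ≥0∞) (hF : Measurable F) (hG : Measurable G) :
    form δ a e c F G ≤ 2 ^ n * (M * (2 * cH r)) * nr (pe r) F * nr (pe r) G := by
  have hM' := fun B hB y => trans_of (ker δ e c) (fun v => M * v ^ (1 / r)) hM B hB y
  have h1 := hls (ker δ e c) (ker_meas _ _ _) (ker_neg _ _ _) hr M hM' F hF
  have h2 := hls (ker δ e c) (ker_meas _ _ _) (ker_neg _ _ _) hr M hM' G hG
  refine (form_le δ hδ a e he c F G hF hG).trans ?_
  set K := M * (2 * cH r) with hK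
  have e1 : ∀ t : ℝ≥0∞, (K * t ^ 2) ^ (1 / 2 : ℝ) = K ^ (1 / 2 : ℝ) * t := by
    intro t
    rw [ENNReal.mul_rpow_of_nonneg _ _ (by norm_num)]
    congr 1
    rw [← ENNReal.rpow_two, ← ENNReal.rpow_mul]
    norm_num
  have e2 : K ^ (1 / 2 : ℝ) * K ^ (1 / 2 : ℝ) = K := by
    rw [← ENNReal.rpow_add_of_nonneg _ _ (by norm_num) (by norm_num)]
    norm_num
  calc 2 ^ n * (En (ker δ e c) F ^ (1 / 2 : ℝ) * En (ker δ e c) G ^ (1 / 2 : ℝ))
      ≤ 2 ^ n * ((K * nr (pe r) F ^ 2) ^ (1 / 2 : ℝ) * (K * nr (pe r) G ^ 2) ^ (1 / 2 : ℝ)) := by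
        gcongr
    _ = 2 ^ n * ((K ^ (1 / 2 : ℝ) * K ^ (1 / 2 : ℝ)) * nr (pe r) F * nr (pe r) G) := by
        rw [e1, e1]; ring
    _ = _ := by rw [e2]; ring

end Pool.Agent.N484.KC
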