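import Mathlib
import Pool.Agent.N484.KC.D
set_option autoImplicit false

/-! From the bilinear inequality to operators, sumsets and additive energies. -/

namespace Pool.Agent.N484.KC

open MeasureTheory Set Metric
open scoped ENNReal Pointwise

variable {n : ℕ}

/-- the convolution -/
noncomputable def cv (F G : E n → ℝ≥0∞) (u : E n) : ℝ≥0∞ := ∫⁻ y, F y * G (u - y)

theorem cv_meas {F G : E n → ℝ≥0∞} (hF : Measurable F) (hG : Measurable G) : Measurable (cv F G) := by
  have : Measurable fun z : E n × E n => F z.2 * G (z.1 - z.2) :=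
    (hF.comp measurable_snd).mul (hG.comp (measurable_fst.sub measurable_snd))
  exact this.lintegral_prod_right'

/-- unfolding -/
theorem cv_test {F G M : E n → ℝ≥0∞} (hF : Measurable F) (hG : Measurable G) (hM : Measurable M) :
    ∫⁻ x, cv F G x * M x = ∫⁻ x, ∫⁻ y, F x * G y * M (x + y) := by
  unfold cv
  have h1 : ∀ x, (∫⁻ y, F y * G (x - y)) * M x = ∫⁻ y, F y * G (x - y) * M x := by
    intro x
    rw [lintegral_mul_const]
    have : Measurable fun y => G (x - y) := hG.comp (measurable_const.sub measurable_id)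
    exact hF.mul this
  simp_rw [h1]
  rw [lintegral_lintegral_swap (by
    exact (((hF.comp measurable_snd).mul (hG.comp (measurable_fst.sub measurable_snd))).mul
      (hM.comp measurable_fst)).aemeasurable)]
  refine lintegral_congr fun y => ?_
  rw [← lintegral_add_left_eq_self _ y]
  refine lintegral_congr fun x => ?_
  rw [add_sub_cancel_left]

/-- the form as a test -/
theorem cv_form {ι : Type} [Fintype ι] (δ : ℝ) (a e : ι → E n) (c : ι → ℝ≥0∞)
    {F G : E n → ℝ≥0∞} (hF : Measurable F) (hG : Measurable G) :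
    ∫⁻ x, cv F G x * ∑ i, c i * ind (cyl (e i) (1 / 2) δ) (x - a i) = form δ a e c F G := by
  have hm : ∀ i, Measurable fun x : E n => ind (cyl (e i) (1 / 2) δ) (x - a i) := fun i =>
    (ind_meas (cyl_meas _ _ _)).comp (measurable_id.sub_const _)
  have hc := cv_meas hF hG
  unfold form
  simp_rw [Finset.mul_sum]
  have hm1 : ∀ i, Measurable fun x : E n => cv F G x * (c i * ind (cyl (e i) (1 / 2) δ) (x - a i)) :=
    fun i => hc.mul ((hm i).const_mul _)
  have hm2 : ∀ i, Measurable fun x : E n => cv F G x * ind (cyl (e i) (1 / 2) δ) (x - a i) :=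
    fun i => hc.mul (hm i)
  rw [lintegral_finsetSum _ fun i _ => hm1 i]
  refine Finset.sum_congr rfl fun i _ => ?_
  rw [← cv_test hF hG (hm i), ← lintegral_const_mul _ (hm2 i)]
  refine lintegral_congr fun x => ?_
  ring

/-- the dual exponent -/
noncomputable def dq (q : ℝ) : ℝ := 2 * q / (2 * q - 1)

theorem dq_pos {q : ℝ} (hq : 1 < q) : 0 < dq q := by
  unfold dq; exact div_pos (by linarith) (by linarith)

theorem dq_inv {q : ℝ} (hq : 1 < q) : 1 / dq q = 1 - 1 / (2 * q) := by
  unfold dq
  have : 2 * q - 1 ≠ 0 := by linarith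
  have : q ≠ 0 := by linarith
  field_simp

/-- the bilinear inequality -/
def Test (q : ℝ) (A : ℝ≥0∞) (M : E n → ℝ≥0∞) : Prop :=
  ∀ F G : E n → ℝ≥0∞, Measurable F → Measurable G →
    ∫⁻ x, cv F G x * M x ≤ A * nr (dq q) F * nr (dq q) G

/-- truncation -/
noncomputable def tr (F : E n → ℝ≥0∞) (j : ℕ) (y : E n) : ℝ≥0∞ :=
  (closedBall (0 : E n) j).indicator (fun y => min (F y) j) y

theorem tr_meas (F : E n → ℝ≥0∞) (hF : Measurable F) (j : ℕ) : Measurable (tr F j) :=
  (hF.min measurable_const).indicator isClosed_closedBall.measurableSet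

theorem tr_le (F : E n → ℝ≥0∞) (j : ℕ) (y : E n) : tr F j y ≤ F y := by
  unfold tr
  by_cases h : y ∈ closedBall (0 : E n) j
  · rw [indicator_of_mem h]; exact min_le_left _ _
  · rw [indicator_of_notMem h]; exact zero_le

theorem tr_le2 (F : E n → ℝ≥0∞) (j : ℕ) (y : E n) :
    tr F j y ≤ (closedBall (0 : E n) j).indicator (fun _ => (j : ℝ≥0∞)) y := by
  unfold tr
  by_cases h : y ∈ closedBall (0 : E n) j
  · rw [indicator_of_mem h, indicator_of_mem h]; exact min_le_right _ _
  · rw [indicator_of_notMem h]; exact zero_le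

theorem tr_mono (F : E n → ℝ≥0∞) : Monotone (tr F) := by
  intro i j hij y
  unfold tr
  have hij' : (i : ℝ) ≤ j := by exact_mod_cast hij
  by_cases h : y ∈ closedBall (0 : E n) i
  · rw [indicator_of_mem h, indicator_of_mem (closedBall_subset_closedBall hij' h)]
    exact min_le_min le_rfl (by exact_mod_cast hij)
  · rw [indicator_of_notMem h]; exact zero_le

theorem tr_sup (F : E n → ℝ≥0∞) (y : E n) : ⨆ j, tr F j y = F y := by
  refine le_antisymm (iSup_le fun j => tr_le F j y) ?_
  refine le_of_forall_lt fun c hc => ?_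
  have hc' : c ≠ ∞ := (hc.trans_le le_top).ne
  obtain ⟨j₁, hj₁⟩ := exists_nat_gt c.toReal
  obtain ⟨j₂, hj₂⟩ := exists_nat_ge ‖y‖
  refine lt_of_lt_of_le ?_ (le_iSup _ (max j₁ j₂))
  unfold tr
  have hmem : y ∈ closedBall (0 : E n) ((max j₁ j₂ : ℕ) : ℝ) := by
    rw [mem_closedBall_zero_iff]
    exact hj₂.trans (by exact_mod_cast le_max_right _ _)
  rw [indicator_of_mem hmem, lt_min_iff]
  refine ⟨hc, ?_⟩
  have h1 : c < (j₁ : ℝ≥0∞) := by
    rw [← ENNReal.ofReal_toReal hc', ← ENNReal.ofReal_natCast]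
    exact (ENNReal.ofReal_lt_ofReal_iff_of_nonneg ENNReal.toReal_nonneg).2 hj₁
  exact h1.trans_le (by exact_mod_cast le_max_left _ _)

theorem nr_neg (p : ℝ) (F : E n → ℝ≥0∞) : nr p (fun y => F (-y)) = nr p F := by
  unfold nr
  congr 1
  exact lintegral_neg_eq_self (fun y => F y ^ p)

/-- **from the bilinear inequality to the operator** -/
theorem op_of {q : ℝ} (hq : 1 < q) {A : ℝ≥0∞} {M : E n → ℝ≥0∞} (hM : Measurable M)
    (hT : Test q A M) (F : E n → ℝ≥0∞) (hF : Measurable F) :
    nr (2 * q) (cv M F) ≤ A * nr (dq q) F := by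
  have hq0 : 0 < q := by linarith
  have hd := dq_pos hq
  set H : E n → ℝ≥0∞ := cv M F with hH
  have hHm : Measurable H := cv_meas hM hF
  set X : ℝ≥0∞ := A * nr (dq q) F with hX
  -- testing against `G`
  have htest : ∀ G : E n → ℝ≥0∞, Measurable G → ∫⁻ x, H x * G x ≤ X * nr (dq q) G := by
    intro G hG
    have hFn : Measurable fun z : E n => F (-z) := hF.comp measurable_neg
    have h1 := hT (fun z => F (-z)) G hFn hG
    rw [nr_neg] at h1
    refine le_trans (le_of_eq ?_) h1
    rw [cv_test hM hF hG, cv_test hFn hG hM]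
    -- `∫∫ M x F y G (x+y) = ∫∫ F (-x) G y M (x + y)`
    have h2 : ∀ x : E n, ∫⁻ y, M x * F y * G (x + y) = ∫⁻ y, M x * F (y - x) * G y := by
      intro x
      rw [← lintegral_sub_right_eq_self _ x (μ := (volume : Measure (E n)))]
      refine lintegral_congr fun y => ?_
      rw [add_sub_cancel]
    simp_rw [h2]
    rw [lintegral_lintegral_swap (by
      exact (((hM.comp measurable_fst).mul (hF.comp (measurable_snd.sub measurable_fst))).mul
        (hG.comp measurable_snd)).aemeasurable)]
    rw [lintegral_lintegral_swap (f := fun x y => F (-x) * G y * M (x + y)) (by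
      exact (((hFn.comp measurable_fst).mul (hG.comp measurable_snd)).mul
        (hM.comp (measurable_fst.add measurable_snd))).aemeasurable)]
    refine lintegral_congr fun y => ?_
    rw [← lintegral_sub_right_eq_self (fun x => F (-x) * G y * M (x + y)) y
      (μ := (volume : Measure (E n)))]
    refine lintegral_congr fun x => ?_
    rw [neg_sub, sub_add_cancel]
    ring
  -- truncations
  have hj : ∀ j : ℕ, ∫⁻ x, tr H j x ^ (2 * q) ≤ X ^ (2 * q) := by
    intro j
    set T := tr H j with hTd
    have hTm : Measurable T := tr_meas H hHm j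
    set I : ℝ≥0∞ := ∫⁻ x, T x ^ (2 * q) with hI
    have hIfin : I ≠ ∞ := by
      refine ne_top_of_le_ne_top ?_ (lintegral_mono fun y =>
        ENNReal.rpow_le_rpow (tr_le2 H j y) (by positivity))
      have h3 : ∀ y : E n, (closedBall (0 : E n) (j : ℝ)).indicator (fun _ => (j : ℝ≥0∞)) y ^ (2 * q) =
          (closedBall (0 : E n) (j : ℝ)).indicator (fun _ => (j : ℝ≥0∞) ^ (2 * q)) y := by
        intro y
        by_cases h : y ∈ closedBall (0 : E n) (j : ℝ)
        · rw [indicator_of_mem h, indicator_of_mem h]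
        · rw [indicator_of_notMem h, indicator_of_notMem h, ENNReal.zero_rpow_of_pos (by positivity)]
      simp_rw [h3]
      rw [lintegral_indicator isClosed_closedBall.measurableSet, lintegral_const,
        Measure.restrict_apply_univ]
      exact ENNReal.mul_ne_top (ENNReal.rpow_ne_top_of_nonneg (by positivity)
        (ENNReal.natCast_ne_top j)) isBounded_closedBall.measure_lt_top.ne
    have h4 := htest (fun x => T x ^ (2 * q - 1)) (hTm.pow_const _)
    have h5 : I ≤ ∫⁻ x, H x * T x ^ (2 * q - 1) := by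
      refine lintegral_mono fun x => ?_
      have h6 : T x ^ (2 * q) = T x * T x ^ (2 * q - 1) := by
        conv_rhs => rw [← ENNReal.rpow_one (T x), ← ENNReal.rpow_mul, one_mul]
        rw [← ENNReal.rpow_add_of_nonneg _ _ (by norm_num) (by linarith)]
        congr 1; ring
      rw [h6]
      exact mul_le_mul' (tr_le H j x) le_rfl
    have h7 : nr (dq q) (fun x => T x ^ (2 * q - 1)) = I ^ (1 - 1 / (2 * q)) := by
      unfold nr
      rw [dq_inv hq]
      congr 1
      rw [hI]
      refine lintegral_congr fun x => ?_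
      rw [← ENNReal.rpow_mul]
      congr 1
      unfold dq
      have : 2 * q - 1 ≠ 0 := by linarith
      field_simp
    rw [h7] at h4
    have h8 : I ≤ X * I ^ (1 - 1 / (2 * q)) := h5.trans h4
    have hs : 0 < 1 / (2 * q) := by positivity
    have hs1 : 1 / (2 * q) < 1 := by rw [div_lt_one (by positivity)]; linarith
    rcases eq_or_ne I 0 with h0 | h0
    · rw [h0]; exact zero_le
    · have h9 : I ^ (1 / (2 * q)) ≤ X := by
        have e1 : I = I ^ (1 / (2 * q)) * I ^ (1 - 1 / (2 * q)) := by
          rw [← ENNReal.rpow_add_of_nonneg _ _ hs.le (by linarith), add_sub_cancel,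
            ENNReal.rpow_one]
        have hp0 : I ^ (1 - 1 / (2 * q)) ≠ 0 := (ENNReal.rpow_pos (pos_iff_ne_zero.2 h0) hIfin).ne'
        have hpt : I ^ (1 - 1 / (2 * q)) ≠ ∞ := ENNReal.rpow_ne_top_of_nonneg (by linarith) hIfin
        rw [e1] at h8
        have e2 : (I ^ (1 / (2 * q)) * I ^ (1 - 1 / (2 * q))) ^ (1 - 1 / (2 * q)) =
            I ^ (1 - 1 / (2 * q)) := by rw [← e1]
        rw [e2] at h8
        exact (ENNReal.mul_le_mul_iff_left hp0 hpt).1 h8
      have h10 := ENNReal.rpow_le_rpow h9 (by positivity : (0 : ℝ) ≤ 2 * q)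
      rw [← ENNReal.rpow_mul] at h10
      have e3 : 1 / (2 * q) * (2 * q) = 1 := by field_simp
      rwa [e3, ENNReal.rpow_one] at h10
  have hfin : ∫⁻ x, H x ^ (2 * q) ≤ X ^ (2 * q) := by
    have h1 : ∀ x, H x ^ (2 * q) = ⨆ j, tr H j x ^ (2 * q) := by
      intro x
      conv_lhs => rw [← tr_sup H x]
      exact (ENNReal.monotone_rpow_of_nonneg (by positivity)).map_iSup_of_continuousAt
        (ENNReal.continuous_rpow_const.continuousAt) (by
          show (0 : ℝ≥0∞) ^ (2 * q) = 0
          exact ENNReal.zero_rpow_of_pos (by positivity))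
    simp_rw [h1]
    rw [lintegral_iSup (f := fun j x => tr H j x ^ (2 * q)) (fun j => (tr_meas H hHm j).pow_const _)
      (fun i j hij x => ENNReal.rpow_le_rpow (tr_mono H hij x) (by positivity))]
    exact iSup_le hj
  unfold nr
  have h1 := ENNReal.rpow_le_rpow hfin (by positivity : (0 : ℝ) ≤ 1 / (2 * q))
  rw [← ENNReal.rpow_mul (X)] at h1
  have e3 : 2 * q * (1 / (2 * q)) = 1 := by field_simp
  rwa [e3, ENNReal.rpow_one] at h1

theorem nr_ind (p : ℝ) (hp : 0 < p) (S : Set (E n)) (hS : MeasurableSet S) :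
    nr p (ind S) = volume S ^ (1 / p) := by
  unfold nr
  congr 1
  have : ∀ x, ind S x ^ p = ind S x := by
    intro x
    by_cases h : x ∈ S
    · rw [ind_mem h, ENNReal.one_rpow]
    · rw [ind_not h, ENNReal.zero_rpow_of_pos hp]
  simp_rw [this]
  unfold ind
  rw [lintegral_indicator_one hS]

/-- **sumsets** -/
theorem sum_of {q : ℝ} (hq : 1 < q) {K : ℝ≥0∞} {M : E n → ℝ≥0∞} (hM : Measurable M)
    (hT : Test q K M) (A B : Set (E n)) (hA : MeasurableSet A) (hB : MeasurableSet B)
    (hAf : volume A ≠ ∞) :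
    volume A ^ (1 / (2 * q)) * ∫⁻ x in B, M x ≤ K * volume (A + B) ^ (1 - 1 / (2 * q)) := by
  have hq0 : 0 < q := by linarith
  have hd := dq_pos hq
  have hs : 0 < 1 / (2 * q) := by positivity
  rcases eq_or_ne (volume A) 0 with h0 | h0
  · rw [h0, ENNReal.zero_rpow_of_pos hs, zero_mul]; exact zero_le
  set U : Set (E n) := toMeasurable volume (A + B) with hU
  have hUm : MeasurableSet U := measurableSet_toMeasurable _ _
  have hUv : volume U = volume (A + B) := measure_toMeasurable _
  have hnA : MeasurableSet (-A) := hA.neg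
  have h1 := hT (ind (-A)) (ind U) (ind_meas hnA) (ind_meas hUm)
  rw [nr_ind _ hd _ hnA, nr_ind _ hd _ hUm, hUv, Measure.measure_neg, dq_inv hq] at h1
  have h2 : volume A * ∫⁻ x in B, M x ≤ ∫⁻ x, cv (ind (-A)) (ind U) x * M x := by
    rw [← lintegral_const_mul _ hM, ← lintegral_indicator hB]
    refine lintegral_mono fun x => ?_
    by_cases hx : x ∈ B
    · rw [indicator_of_mem hx]
      refine mul_le_mul' ?_ le_rfl
      unfold cv
      have h3 : ∫⁻ y, ind (-A) y = volume A := by
        unfold ind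
        rw [lintegral_indicator_one hnA, Measure.measure_neg]
      rw [← h3]
      refine lintegral_mono fun y => ?_
      by_cases hy : y ∈ -A
      · have hu : x - y ∈ U := by
          refine subset_toMeasurable _ _ ?_
          refine ⟨-y, hy, x, hx, ?_⟩
          simp only
          abel
        rw [ind_mem hy, ind_mem hu, one_mul]
      · rw [ind_not hy]; exact zero_le
    · rw [indicator_of_notMem hx]; exact zero_le
  have h3 := h2.trans h1
  have hp0 : volume A ^ (1 - 1 / (2 * q)) ≠ 0 := (ENNReal.rpow_pos (pos_iff_ne_zero.2 h0) hAf).ne'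
  have hs1 : 1 / (2 * q) < 1 := by rw [div_lt_one (by positivity)]; linarith
  have hpt : volume A ^ (1 - 1 / (2 * q)) ≠ ∞ := ENNReal.rpow_ne_top_of_nonneg (by linarith) hAf
  have e1 : volume A = volume A ^ (1 / (2 * q)) * volume A ^ (1 - 1 / (2 * q)) := by
    rw [← ENNReal.rpow_add_of_nonneg _ _ hs.le (by linarith), add_sub_cancel, ENNReal.rpow_one]
  have h4 : (volume A ^ (1 / (2 * q)) * ∫⁻ x in B, M x) * volume A ^ (1 - 1 / (2 * q)) ≤
      (K * volume (A + B) ^ (1 - 1 / (2 * q))) * volume A ^ (1 - 1 / (2 * q)) := by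
    calc (volume A ^ (1 / (2 * q)) * ∫⁻ x in B, M x) * volume A ^ (1 - 1 / (2 * q))
        = (volume A ^ (1 / (2 * q)) * volume A ^ (1 - 1 / (2 * q))) * ∫⁻ x in B, M x := by ring
      _ = volume A * ∫⁻ x in B, M x := by rw [← e1]
      _ ≤ _ := h3
      _ = _ := by ring
  exact (ENNReal.mul_le_mul_iff_left hp0 hpt).1 h4

/-- the additive energy -/
noncomputable def en (A B : Set (E n)) : ℝ≥0∞ := ∫⁻ w, volume {y | y ∈ A ∧ w - y ∈ B} ^ 2

theorem cv_ind (A B : Set (E n)) (hA : MeasurableSet A) (hB : MeasurableSet B) (w : E n) :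
    cv (ind A) (ind B) w = volume {y | y ∈ A ∧ w - y ∈ B} := by
  unfold cv
  have hm : MeasurableSet {y : E n | y ∈ A ∧ w - y ∈ B} :=
    hA.inter (hB.preimage (measurable_const.sub measurable_id))
  rw [← lintegral_indicator_one hm]
  refine lintegral_congr fun y => ?_
  by_cases h1 : y ∈ A
  · by_cases h2 : w - y ∈ B
    · rw [ind_mem h1, ind_mem h2, indicator_of_mem (by exact ⟨h1, h2⟩)]; simp
    · rw [ind_not h2, indicator_of_notMem (fun h => h2 h.2)]; simp
  · rw [ind_not h1, indicator_of_notMem (fun h => h1 h.1)]; simp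

theorem cv_int (F G : E n → ℝ≥0∞) (hF : Measurable F) (hG : Measurable G) :
    ∫⁻ w, cv F G w = (∫⁻ w, F w) * ∫⁻ w, G w := by
  have h := cv_test (M := fun _ => 1) hF hG measurable_const
  simp only [mul_one] at h
  rw [h]
  exact lintegral_lintegral_mul hF.aemeasurable hG.aemeasurable

/-- **additive energies** -/
theorem energy_of {q : ℝ} (hq : 1 < q) {K : ℝ≥0∞} {M : E n → ℝ≥0∞}
    (hT : Test q K M) (A B : Set (E n)) (hA : MeasurableSet A) (hB : MeasurableSet B)
    (hAf : volume A ≠ ∞) (hBf : volume B ≠ ∞) (μ : ℝ≥0∞) (hμ : ∀ x ∈ B, μ ≤ M x) :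
    μ * en A B ^ (1 - 1 / (2 * q)) ≤
      K * (volume A ^ (2 - 3 / (2 * q)) * volume B ^ (1 - 1 / q)) := by
  have hq0 : 0 < q := by linarith
  have hd := dq_pos hq
  have hs : 0 < 1 / (2 * q) := by positivity
  have hs1 : 1 / (2 * q) < 1 / 2 := by
    rw [div_lt_div_iff₀ (by positivity) (by norm_num)]; linarith
  set H : E n → ℝ≥0∞ := cv (ind A) (ind B) with hH
  have hHm : Measurable H := cv_meas (ind_meas hA) (ind_meas hB)
  have hen : en A B = ∫⁻ w, H w ^ 2 := by
    unfold en
    refine lintegral_congr fun w => ?_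
    rw [hH, cv_ind A B hA hB]
  have hHint : ∫⁻ w, H w = volume A * volume B := by
    rw [hH, cv_int _ _ (ind_meas hA) (ind_meas hB)]
    unfold ind
    rw [lintegral_indicator_one hA, lintegral_indicator_one hB]
  have hHle : ∀ w, H w ≤ volume A := by
    intro w
    rw [hH, cv_ind A B hA hB]
    exact measure_mono fun y hy => hy.1
  have hef : en A B ≠ ∞ := by
    rw [hen]
    refine ne_top_of_le_ne_top (b := volume A * (volume A * volume B)) ?_ ?_
    · exact ENNReal.mul_ne_top hAf (ENNReal.mul_ne_top hAf hBf)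
    · rw [← hHint, ← lintegral_const_mul _ hHm]
      refine lintegral_mono fun w => ?_
      rw [sq]
      exact mul_le_mul' (hHle w) le_rfl
  rcases eq_or_ne (en A B) 0 with he0 | he0
  · rw [he0, ENNReal.zero_rpow_of_pos (by linarith), mul_zero]; exact zero_le
  have hnA : MeasurableSet (-A) := hA.neg
  have h1 := hT (ind (-A)) H (ind_meas hnA) hHm
  rw [nr_ind _ hd _ hnA, Measure.measure_neg, dq_inv hq] at h1
  -- the left hand side
  have h2 : μ * en A B ≤ ∫⁻ x, cv (ind (-A)) H x * M x := by
    have hcm : Measurable (cv (ind (-A)) H) := cv_meas (ind_meas hnA) hHm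
    have h3 : en A B = ∫⁻ x, cv (ind (-A)) H x * ind B x := by
      rw [cv_test (ind_meas hnA) hHm (ind_meas hB), hen]
      have h4 : ∀ w, H w ^ 2 = ∫⁻ y, ind (-A) y * H w * ind B (y + w) := by
        intro w
        rw [sq]
        conv_lhs => rw [hH]
        have h5 : cv (ind A) (ind B) w = ∫⁻ y, ind (-A) y * ind B (y + w) := by
          unfold cv
          rw [← lintegral_neg_eq_self (fun y : E n => ind A y * ind B (w - y))]
          refine lintegral_congr fun y => ?_
          have e1 : ind A (-y) = ind (-A) y := by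
            by_cases h : -y ∈ A
            · rw [ind_mem h, ind_mem (by exact h)]
            · rw [ind_not h, ind_not (by exact h)]
          rw [e1]
          congr 2
          abel
        have m1 : Measurable fun y => ind (-A) y * ind B (y + w) :=
          (ind_meas hnA).mul ((ind_meas hB).comp (measurable_id.add_const w))
        rw [← hH]
        conv_lhs => rw [show H w * H w = H w * cv (ind A) (ind B) w from rfl, h5,
          ← lintegral_const_mul _ m1]
        refine lintegral_congr fun y => ?_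
        ring
      simp_rw [h4]
      rw [lintegral_lintegral_swap]
      exact (((ind_meas hnA).comp measurable_snd).mul (hHm.comp measurable_fst)).mul
        ((ind_meas hB).comp (measurable_snd.add measurable_fst)) |>.aemeasurable
    have hcm2 : Measurable fun x => cv (ind (-A)) H x * ind B x := hcm.mul (ind_meas hB)
    rw [h3, ← lintegral_const_mul _ hcm2]
    refine lintegral_mono fun x => ?_
    by_cases hx : x ∈ B
    · rw [ind_mem hx, mul_one, mul_comm]
      exact mul_le_mul' le_rfl (hμ x hx)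
    · rw [ind_not hx, mul_zero, mul_zero]; exact zero_le
  -- interpolation
  have h3 : nr (dq q) H ≤ (volume A * volume B) ^ (1 - 1 / q) * en A B ^ (1 / (2 * q)) := by
    unfold nr
    rw [dq_inv hq]
    -- `∫ H^d ≤ (∫ H)^(2-d) (∫ H^2)^(d-1)`
    have hd1 : 1 < dq q := by
      unfold dq; rw [lt_div_iff₀ (by linarith)]; linarith
    have hd2 : dq q < 2 := by
      unfold dq; rw [div_lt_iff₀ (by linarith)]; linarith
    have h4 := ENNReal.lintegral_mul_norm_pow_le (μ := (volume : Measure (E n)))
      hHm.aemeasurable (hHm.pow_const 2).aemeasurable (p := 2 - dq q) (q := dq q - 1)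
      (by linarith) (by linarith) (by ring)
    have h5 : ∫⁻ x, H x ^ dq q ≤ (∫⁻ x, H x) ^ (2 - dq q) * (∫⁻ x, H x ^ 2) ^ (dq q - 1) := by
      refine le_trans (le_of_eq ?_) h4
      refine lintegral_congr fun x => ?_
      rw [← ENNReal.rpow_natCast, ← ENNReal.rpow_mul,
        ← ENNReal.rpow_add_of_nonneg _ _ (by linarith) (by
          push_cast; nlinarith)]
      congr 1
      push_cast; ring
    rw [hHint, ← hen] at h5
    have h6 := ENNReal.rpow_le_rpow h5 (by linarith : (0 : ℝ) ≤ 1 - 1 / (2 * q))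
    refine h6.trans (le_of_eq ?_)
    rw [ENNReal.mul_rpow_of_nonneg _ _ (by linarith), ← ENNReal.rpow_mul, ← ENNReal.rpow_mul]
    have h2q : 2 * q - 1 ≠ 0 := by linarith
    congr 2
    · unfold dq; field_simp; ring
    · unfold dq; field_simp; ring
  have h4 : μ * en A B ≤ K * (volume A ^ (1 - 1 / (2 * q)) *
      (volume A * volume B) ^ (1 - 1 / q)) * en A B ^ (1 / (2 * q)) := by
    refine (h2.trans h1).trans ?_
    calc K * volume A ^ (1 - 1 / (2 * q)) * nr (dq q) H
        ≤ K * volume A ^ (1 - 1 / (2 * q)) *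
          ((volume A * volume B) ^ (1 - 1 / q) * en A B ^ (1 / (2 * q))) := by gcongr
      _ = _ := by ring
  have hq1 : 0 ≤ 1 - 1 / q := by
    have : 1 / q < 1 := by rw [div_lt_one hq0]; exact hq
    linarith
  have e1 : volume A ^ (1 - 1 / (2 * q)) * (volume A * volume B) ^ (1 - 1 / q) =
      volume A ^ (2 - 3 / (2 * q)) * volume B ^ (1 - 1 / q) := by
    rw [ENNReal.mul_rpow_of_nonneg _ _ hq1, ← mul_assoc,
      ← ENNReal.rpow_add_of_nonneg _ _ (by linarith) hq1]
    congr 2
    field_simp
    ring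
  rw [e1] at h4
  have hp0 : en A B ^ (1 / (2 * q)) ≠ 0 := (ENNReal.rpow_pos (pos_iff_ne_zero.2 he0) hef).ne'
  have hpt : en A B ^ (1 / (2 * q)) ≠ ∞ := ENNReal.rpow_ne_top_of_nonneg (by linarith) hef
  have e2 : en A B = en A B ^ (1 - 1 / (2 * q)) * en A B ^ (1 / (2 * q)) := by
    rw [← ENNReal.rpow_add_of_nonneg _ _ (by linarith) hs.le, sub_add_cancel, ENNReal.rpow_one]
  have h5 : (μ * en A B ^ (1 - 1 / (2 * q))) * en A B ^ (1 / (2 * q)) ≤
      K * (volume A ^ (2 - 3 / (2 * q)) * volume B ^ (1 - 1 / q)) * en A B ^ (1 / (2 * q)) := by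
    rw [mul_assoc, ← e2]
    exact h4
  exact (ENNReal.mul_le_mul_iff_left hp0 hpt).1 h5

end Pool.Agent.N484.KC
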