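import Mathlib
import Pool.Agent.N484.KC.F
set_option autoImplicit false

/-! Functions with structured superlevel sets. -/

namespace Pool.Agent.N484.KC

open MeasureTheory Set Metric
open scoped ENNReal Pointwise

variable {n : ℕ}

/-- every superlevel set contains a set of comparable volume with large additive energy -/
def Structured (κ : ℝ) (M : E n → ℝ≥0∞) : Prop :=
  ∀ μ : ℝ, 0 < μ → ∃ B : Set (E n), MeasurableSet B ∧ B ⊆ {x | ENNReal.ofReal μ ≤ M x} ∧
    ENNReal.ofReal κ * volume {x | ENNReal.ofReal μ ≤ M x} ≤ volume B ∧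
    ENNReal.ofReal κ * volume B ^ 3 ≤ en B B

/-- the weak type inequality -/
theorem weak_of {q : ℝ} (hq : 1 < q) {k : ℝ} (hk : 0 < k) {M : E n → ℝ≥0∞} (hM : Measurable M)
    (hMi : ∫⁻ x, M x ≠ ∞) (hT : Test q (ENNReal.ofReal k) M) {κ : ℝ} (hκ : 0 < κ)
    (hS : Structured κ M) (μ : ℝ) (hμ : 0 < μ) :
    volume {x | ENNReal.ofReal μ ≤ M x} ≤
      ENNReal.ofReal (k ^ q * κ ^ (-(q + 1 / 2)) * μ ^ (-q)) := by
  have hq0 : 0 < q := by linarith
  obtain ⟨B, hBm, hBs, hB1, hB2⟩ := hS μ hμ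
  have hEf : volume {x | ENNReal.ofReal μ ≤ M x} ≠ ∞ := by
    have h1 := meas_ge_le_lintegral_div (μ := (volume : Measure (E n))) hM.aemeasurable
      (ε := ENNReal.ofReal μ) (ENNReal.ofReal_pos.2 hμ).ne' ENNReal.ofReal_ne_top
    exact ne_top_of_le_ne_top (ENNReal.div_ne_top hMi (ENNReal.ofReal_pos.2 hμ).ne') h1
  have hBf : volume B ≠ ∞ := ne_top_of_le_ne_top hEf (measure_mono hBs)
  -- the bound for `B`
  have hBb : volume B ≤ ENNReal.ofReal (k ^ q * κ ^ (-(q - 1 / 2)) * μ ^ (-q)) := by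
    rcases eq_or_ne (volume B) 0 with h0 | h0
    · rw [h0]; exact zero_le
    set v : ℝ := (volume B).toReal with hv
    have hv0 : 0 < v := ENNReal.toReal_pos h0 hBf
    have hve : volume B = ENNReal.ofReal v := (ENNReal.ofReal_toReal hBf).symm
    have h1 := energy_of hq hT B B hBm hBm hBf hBf (ENNReal.ofReal μ) (fun x hx => hBs hx)
    have hs1 : 1 / (2 * q) < 1 / 2 := by
      rw [div_lt_div_iff₀ (by positivity) (by norm_num)]; linarith
    have hs0 : 0 < 1 / (2 * q) := by positivity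
    have h2 : ENNReal.ofReal μ * (ENNReal.ofReal κ * volume B ^ 3) ^ (1 - 1 / (2 * q)) ≤
        ENNReal.ofReal k * (volume B ^ (2 - 3 / (2 * q)) * volume B ^ (1 - 1 / q)) := by
      refine le_trans ?_ h1
      have : 0 ≤ 1 - 1 / (2 * q) := by linarith
      gcongr
    have h3q : 0 < 2 - 3 / (2 * q) := by
      have : 3 / (2 * q) = 3 * (1 / (2 * q)) := by ring
      rw [this]; linarith
    have h1q : 0 < 1 - 1 / q := by
      have : 1 / q = 2 * (1 / (2 * q)) := by field_simp
      rw [this]; linarith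
    rw [hve, ← ENNReal.ofReal_pow hv0.le, ← ENNReal.ofReal_mul hκ.le,
      ENNReal.ofReal_rpow_of_nonneg (by positivity) (by linarith), ← ENNReal.ofReal_mul hμ.le,
      ENNReal.ofReal_rpow_of_nonneg hv0.le h3q.le, ENNReal.ofReal_rpow_of_nonneg hv0.le h1q.le,
      ← ENNReal.ofReal_mul (by positivity), ← ENNReal.ofReal_mul hk.le,
      ENNReal.ofReal_le_ofReal_iff (by positivity)] at h2
    -- in real numbers
    have h3 : μ * κ ^ (1 - 1 / (2 * q)) * v ^ (1 / q) ≤ k := by
      rw [Real.mul_rpow hκ.le (by positivity), ← Real.rpow_natCast, ← Real.rpow_mul hv0.le,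
        ← Real.rpow_add hv0] at h2
      have e1 : ((3 : ℕ) : ℝ) * (1 - 1 / (2 * q)) = 1 / q + (2 - 3 / (2 * q) + (1 - 1 / q)) := by
        push_cast; field_simp; ring
      rw [e1, Real.rpow_add hv0] at h2
      have hp : 0 < v ^ (2 - 3 / (2 * q) + (1 - 1 / q)) := by positivity
      have h4 : (μ * κ ^ (1 - 1 / (2 * q)) * v ^ (1 / q)) * v ^ (2 - 3 / (2 * q) + (1 - 1 / q)) ≤
          k * v ^ (2 - 3 / (2 * q) + (1 - 1 / q)) := by
        calc _ = μ * (κ ^ (1 - 1 / (2 * q)) *
              (v ^ (1 / q) * v ^ (2 - 3 / (2 * q) + (1 - 1 / q)))) := by ring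
          _ ≤ _ := h2
      exact le_of_mul_le_mul_right h4 hp
    rw [hve]
    refine ENNReal.ofReal_le_ofReal ?_
    have h4 : v ^ (1 / q) ≤ k * κ ^ (-(1 - 1 / (2 * q))) * μ⁻¹ := by
      rw [Real.rpow_neg hκ.le]
      have hp : 0 < κ ^ (1 - 1 / (2 * q)) := by positivity
      rw [← div_eq_mul_inv, ← div_eq_mul_inv, le_div_iff₀ hμ, le_div_iff₀ hp]
      calc _ = μ * κ ^ (1 - 1 / (2 * q)) * v ^ (1 / q) := by ring
        _ ≤ k := h3
    have h5 := Real.rpow_le_rpow (by positivity) h4 hq0.le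
    rw [← Real.rpow_mul hv0.le, one_div_mul_cancel hq0.ne', Real.rpow_one] at h5
    refine h5.trans (le_of_eq ?_)
    rw [Real.mul_rpow (by positivity) (by positivity), Real.mul_rpow hk.le (by positivity),
      ← Real.rpow_mul hκ.le, Real.inv_rpow hμ.le, Real.rpow_neg hμ.le]
    congr 3
    field_simp
  -- the superlevel set
  have hκ0 : ENNReal.ofReal κ ≠ 0 := (ENNReal.ofReal_pos.2 hκ).ne'
  have h6 : ENNReal.ofReal κ * volume {x | ENNReal.ofReal μ ≤ M x} ≤
      ENNReal.ofReal κ * ENNReal.ofReal (k ^ q * κ ^ (-(q + 1 / 2)) * μ ^ (-q)) := by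
    refine (hB1.trans hBb).trans (le_of_eq ?_)
    rw [← ENNReal.ofReal_mul hκ.le]
    congr 1
    have : κ ^ (-(q - 1 / 2)) = κ * κ ^ (-(q + 1 / 2)) := by
      conv_rhs => rw [← Real.rpow_one κ, ← Real.rpow_mul hκ.le, one_mul]
      rw [← Real.rpow_add hκ]
      congr 1; ring
    rw [this]; ring
  exact (ENNReal.mul_le_mul_iff_right hκ0 ENNReal.ofReal_ne_top).1 h6

/-- from weak type to strong type, for bounded functions -/
theorem strong_of {p q : ℝ} (hp : 0 < p) (hpq : p < q) {W N : ℝ} (hW : 0 ≤ W) (hN : 0 ≤ N)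
    {M : E n → ℝ≥0∞} (hM : Measurable M) (hMN : ∀ x, M x ≤ ENNReal.ofReal N)
    (hw : ∀ μ : ℝ, 0 < μ → volume {x | ENNReal.ofReal μ ≤ M x} ≤ ENNReal.ofReal (W * μ ^ (-p))) :
    ∫⁻ x, M x ^ q ≤ ENNReal.ofReal (q / (q - p) * W * N ^ (q - p)) := by
  have hq0 : 0 < q := by linarith
  have hqp : 0 < q - p := by linarith
  have hMt : ∀ x, M x ≠ ∞ := fun x => ne_top_of_le_ne_top ENNReal.ofReal_ne_top (hMN x)
  set f : E n → ℝ := fun x => (M x).toReal with hf
  have hf0 : ∀ x, 0 ≤ f x := fun x => ENNReal.toReal_nonneg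
  have hfm : Measurable f := hM.ennreal_toReal
  have hMf : ∀ x, M x = ENNReal.ofReal (f x) := fun x => (ENNReal.ofReal_toReal (hMt x)).symm
  have hfN : ∀ x, f x ≤ N := by
    intro x
    have := hMN x
    rw [hMf x, ENNReal.ofReal_le_ofReal_iff hN] at this
    exact this
  have h1 := lintegral_rpow_eq_lintegral_meas_lt_mul (volume : Measure (E n))
    (Filter.Eventually.of_forall hf0) hfm.aemeasurable (p := q) hq0
  have h2 : ∀ x, M x ^ q = ENNReal.ofReal (f x ^ q) := by
    intro x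
    rw [hMf x, ENNReal.ofReal_rpow_of_nonneg (hf0 x) hq0.le]
  simp_rw [h2]
  rw [h1]
  have h3 : ∫⁻ t in Ioi (0 : ℝ), volume {a : E n | t < f a} * ENNReal.ofReal (t ^ (q - 1)) ≤
      ∫⁻ t in Ioc (0 : ℝ) N, ENNReal.ofReal (W * t ^ (q - p - 1)) := by
    rw [← lintegral_indicator measurableSet_Ioi, ← lintegral_indicator measurableSet_Ioc]
    refine lintegral_mono fun t => ?_
    by_cases ht : 0 < t
    · rw [indicator_of_mem (show t ∈ Ioi (0 : ℝ) from ht)]
      by_cases htN : t ≤ N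
      · rw [indicator_of_mem (show t ∈ Ioc 0 N from ⟨ht, htN⟩)]
        have h4 : volume {a : E n | t < f a} ≤ ENNReal.ofReal (W * t ^ (-p)) := by
          refine le_trans (measure_mono ?_) (hw t ht)
          intro x hx
          show ENNReal.ofReal t ≤ M x
          rw [hMf x]
          exact ENNReal.ofReal_le_ofReal (le_of_lt hx)
        refine (mul_le_mul' h4 le_rfl).trans (le_of_eq ?_)
        rw [← ENNReal.ofReal_mul (by positivity), mul_assoc, ← Real.rpow_add ht]
        congr 3; ring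
      · have : {a : E n | t < f a} = ∅ := by
          ext x
          simp only [mem_ofPred_eq, mem_empty_iff_false, iff_false, not_lt]
          exact (hfN x).trans (not_le.1 htN).le
        rw [this, measure_empty, zero_mul]; exact zero_le
    · rw [indicator_of_notMem (show t ∉ Ioi (0 : ℝ) from ht)]; exact zero_le
  have h4 : ∫⁻ t in Ioc (0 : ℝ) N, ENNReal.ofReal (W * t ^ (q - p - 1)) =
      ENNReal.ofReal (W * (N ^ (q - p) / (q - p))) := by
    have hr : -1 < q - p - 1 := by linarith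
    have hi : IntegrableOn (fun t : ℝ => t ^ (q - p - 1)) (Ioc 0 N) :=
      (intervalIntegrable_iff_integrableOn_Ioc_of_le hN).1
        (intervalIntegral.intervalIntegrable_rpow' hr)
    rw [← ofReal_integral_eq_lintegral_ofReal (hi.const_mul W) ?_,
      ← intervalIntegral.integral_of_le hN, intervalIntegral.integral_const_mul,
      integral_rpow (Or.inl hr)]
    · congr 2
      rw [sub_add_cancel, Real.zero_rpow hqp.ne', sub_zero]
    · rw [Filter.EventuallyLE, ae_restrict_iff' measurableSet_Ioc]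
      exact Filter.Eventually.of_forall fun s hs => mul_nonneg hW (Real.rpow_nonneg hs.1.le _)
  calc ENNReal.ofReal q * ∫⁻ t in Ioi (0 : ℝ), volume {a : E n | t < f a} * ENNReal.ofReal (t ^ (q - 1))
      ≤ ENNReal.ofReal q * ENNReal.ofReal (W * (N ^ (q - p) / (q - p))) := by
        rw [← h4]; gcongr
    _ = _ := by
        rw [← ENNReal.ofReal_mul hq0.le]
        congr 1
        ring

end Pool.Agent.N484.KC
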